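import Pool.Agent.K3h47.FU.Ren

/-! The monomials in a class on an abelian cover whose line bundles have several degrees. -/

set_option autoImplicit false
set_option linter.unusedSectionVars false

namespace Pool.Agent.Run7.h30.MF

open Pool.Agent.K3h47.FU

section
variable {ι : Type} [DecidableEq ι] {m : ι → ℕ} [∀ j, NeZero (m j)]

/-- One order of the coordinates outside `I` which is good for all `M`. -/
theorem exists_list' [Fintype ι] (Λ : AddSubgroup (∀ j, ZMod (m j))) (n : ℕ)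
    (hS : ∀ I : Finset ι, I.card ≤ n → ∀ i ∈ I, ∃ ρ ∈ Λ, ρ i = 1 ∧ ∀ i' ∈ I, i' ≠ i → ρ i' = 0)
    (I : Finset ι) (hI : I.card ≤ n) :
    ∃ l : List ι, l.Nodup ∧ (∀ j ∈ l, j ∉ I) ∧ I ∪ l.toFinset = Finset.univ ∧
      ∀ M : ℕ, M ≠ 0 → (∀ p : ℕ, p.Prime → p ∣ M →
        n + 1 ≤ (Finset.univ.filter (fun j => p ^ M.factorization p ∣ m j)).card) →
      ∑ i ∈ I, ((wt m M i : ℚ) - 1) + ((n : ℚ) - I.card) * (M - 1) ≤ tot M Λ I l := by
  classical
  by_cases h2 : n ≤ Fintype.card ι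
  · obtain ⟨I₁, hI₁, hc₁⟩ := Finset.exists_superset_card_eq hI h2
    set l₁ := (I₁ \ I).toList with hl₁
    set l₂ := (Finset.univ \ I₁).toList with hl₂
    have hl₁s : I ∪ l₁.toFinset = I₁ := by
      rw [hl₁, Finset.toList_toFinset, Finset.union_sdiff_of_subset hI₁]
    refine ⟨l₁ ++ l₂, ?_, ?_, ?_, fun M hM hF => ?_⟩
    · refine List.Nodup.append (Finset.nodup_toList _) (Finset.nodup_toList _) ?_
      intro j hj hj'
      rw [hl₁, Finset.mem_toList, Finset.mem_sdiff] at hj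
      rw [hl₂, Finset.mem_toList, Finset.mem_sdiff] at hj'
      exact hj'.2 hj.1
    · intro j hj
      rcases List.mem_append.1 hj with hj | hj
      · rw [hl₁, Finset.mem_toList, Finset.mem_sdiff] at hj
        exact hj.2
      · rw [hl₂, Finset.mem_toList, Finset.mem_sdiff] at hj
        exact fun h => hj.2 (hI₁ h)
    · rw [List.toFinset_append, ← Finset.union_assoc, hl₁s, hl₂, Finset.toList_toFinset,
        Finset.union_sdiff_of_subset (Finset.subset_univ _)]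
    · rw [tot_append, hl₁s]
      have h3 := tot_free M Λ n hS l₁ I (Finset.nodup_toList _) (by
        intro j hj
        rw [hl₁, Finset.mem_toList, Finset.mem_sdiff] at hj
        exact hj.2) (by rw [hl₁s, hc₁])
      have h4 := tot_ge M hM Λ n hS hF I₁ hc₁.le l₂ (by
        rw [hl₂, Finset.toList_toFinset, Finset.union_sdiff_of_subset (Finset.subset_univ _)])
      have h5 : (l₁.map fun j => ((M : ℚ) - wt m M j)).sum = ∑ j ∈ I₁ \ I, ((M : ℚ) - wt m M j) := by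
        rw [hl₁, Finset.sum_map_toList]
      rw [h5] at h3
      have h6 : ∑ i ∈ I₁, (((M / Nat.gcd M (m i) : ℕ) : ℚ) - 1)
          = ∑ i ∈ I, ((wt m M i : ℚ) - 1) + ∑ j ∈ I₁ \ I, ((wt m M j : ℚ) - 1) := by
        rw [add_comm, Finset.sum_sdiff hI₁]
        rfl
      rw [h6] at h4
      have h7 : ∑ j ∈ I₁ \ I, ((M : ℚ) - wt m M j) + ∑ j ∈ I₁ \ I, ((wt m M j : ℚ) - 1)
          = ((n : ℚ) - I.card) * (M - 1) := by
        rw [← Finset.sum_add_distrib]
        have h8 : ∀ j ∈ I₁ \ I, ((M : ℚ) - wt m M j) + ((wt m M j : ℚ) - 1) = M - 1 := by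
          intro j _; ring
        rw [Finset.sum_congr rfl h8, Finset.sum_const, nsmul_eq_mul,
          Finset.cast_card_sdiff hI₁, hc₁]
      linarith
  · have hl : I ∪ (Finset.univ \ I).toList.toFinset = Finset.univ := by
      rw [Finset.toList_toFinset]
      ext w
      simp only [Finset.mem_union, Finset.mem_sdiff, Finset.mem_univ, true_and, iff_true]
      tauto
    refine ⟨(Finset.univ \ I).toList, Finset.nodup_toList _, ?_, hl, fun M hM hF => ?_⟩
    · intro j hj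
      rw [Finset.mem_toList, Finset.mem_sdiff] at hj
      exact hj.2
    · have h1 : M = 1 := by
        by_contra h1
        obtain ⟨p, hp, hpM⟩ := Nat.exists_prime_and_dvd h1
        have h3 := hF p hp hpM
        have h4 := Finset.card_le_univ (Finset.univ.filter (fun j => p ^ M.factorization p ∣ m j))
        omega
      have h2 := tot_ge M hM Λ n hS hF I hI (Finset.univ \ I).toList hl
      have h3 : ((M : ℚ) - 1) = 0 := by rw [h1]; norm_num
      rw [h3, mul_zero, add_zero]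
      exact h2

/-- `y` is large at all coordinates in the list except one -/
def Near (Λ : AddSubgroup (∀ j, ZMod (m j))) (y : ∀ j, ZMod (m j)) :
    Finset ι → List ι → Prop
  | _, [] => True
  | I, j :: l => TopE Λ y (insert j I) l ∨
      (m j ≤ (y j).val + m j / Nat.card (prj Λ I 0 j) ∧ Near Λ y (insert j I) l)

theorem Near.sum {M : ℕ} (hM : M ≠ 0) {Λ : AddSubgroup (∀ j, ZMod (m j))} {y : ∀ j, ZMod (m j)} :
    ∀ (l : List ι) (I : Finset ι), Near Λ y I l →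
      tot M Λ I l - M < (l.map fun j => ((y j).val * wt m M j : ℚ)).sum := by
  have hMpos : (0 : ℚ) < M := by exact_mod_cast Nat.pos_of_ne_zero hM
  intro l
  induction l with
  | nil => intro I _; simp [tot, hMpos]
  | cons j l ih =>
    intro I h
    rw [tot, List.map_cons, List.sum_cons]
    rcases h with h | ⟨h1, h2⟩
    · have h3 := TopE.sum (M := M) l _ h
      have h4 : (0 : ℚ) ≤ (y j).val * wt m M j := by positivity
      have h5 : (0 : ℚ) < Nat.card (prj Λ I 0 j) := by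
        exact_mod_cast (Nat.card_pos (α := prj Λ I 0 j))
      have h6 : (0 : ℚ) < M / Nat.card (prj Λ I 0 j) := by positivity
      linarith
    · have h3 := ih _ h2
      have h4 := est (M := M) j (Nat.card_pos (α := prj Λ I 0 j)) (card_prj_dvd Λ I j) 1 (y j).val
        Nat.card_pos (by rw [one_mul]; exact h1)
      rw [Nat.cast_one, one_mul] at h4
      linarith

theorem TopE.near {Λ : AddSubgroup (∀ j, ZMod (m j))} {y : ∀ j, ZMod (m j)} :
    ∀ (l : List ι) (I : Finset ι), TopE Λ y I l → Near Λ y I l := by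
  intro l
  induction l with
  | nil => intro I _; trivial
  | cons j l ih => intro I h; exact Or.inl h.2

/-- The generation lemma. -/
theorem genM [Fintype ι] (Λ : AddSubgroup (∀ j, ZMod (m j)))
    (z : ∀ j, ZMod (m j)) (Γ : AddSubgroup (∀ j, ZMod (m j))) :
    ∀ (l : List ι) (I : Finset ι), I ∪ l.toFinset = Finset.univ → TopE Λ z I l →
      (∀ y, y - z ∈ Λ → (∀ i ∈ I, y i = z i) → Near Λ y I l → y - z ∈ Γ) →
      ∀ x ∈ van Λ I 0, x ∈ Γ := by
  intro l
  induction l with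
  | nil =>
    intro I hI _ _ x hx
    rw [List.toFinset_nil, Finset.union_empty] at hI
    have h1 : x = 0 := funext fun i => hx.2.1 i (by rw [hI]; exact Finset.mem_univ i)
    rw [h1]
    exact Γ.zero_mem
  | cons j l ih =>
    intro I hI htop H x hx
    set g := Nat.card (prj Λ I 0 j) with hg
    -- the generator
    obtain ⟨v, hv, hvj⟩ := div_mem (prj Λ I 0 j)
    have hvj' : v j = ((m j / g : ℕ) : ZMod (m j)) := hvj
    obtain ⟨y, hy1, hy2, hy3⟩ := exists_topE Λ l (insert j I) (z - v)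
    have hyI : ∀ i ∈ I, y i = z i := fun i hi => by
      rw [hy2 i (Finset.mem_insert_of_mem hi), Pi.sub_apply, hv.2.1 i hi, sub_zero]
    have hyΛ : y - z ∈ Λ := by
      have h1 : y - z = (y - (z - v)) - v := by abel
      rw [h1]
      exact Λ.sub_mem hy1 hv.1
    have hyΓ : y - z ∈ Γ := H y hyΛ hyI (Or.inl hy3)
    -- the element `x` minus a multiple
    obtain ⟨c, hc⟩ := exists_mul (prj Λ I 0 j) (x := x j) ⟨x, hx, rfl⟩
    have h4 : x + c • (y - z) ∈ van Λ (insert j I) 0 := by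
      refine ⟨Λ.add_mem hx.1 (Λ.nsmul_mem hyΛ c), ?_, by rw [zero_smul]⟩
      intro i hi
      rcases Finset.mem_insert.1 hi with rfl | hi
      · rw [Pi.add_apply, Pi.smul_apply, Pi.sub_apply, hy2 _ (Finset.mem_insert_self _ _),
          Pi.sub_apply, hvj', hc, ← hg]
        simp
      · rw [Pi.add_apply, Pi.smul_apply, Pi.sub_apply, hyI i hi, hx.2.1 i hi]
        simp
    have h5 := ih (insert j I) (by
        rw [← hI, List.toFinset_cons]
        ext w
        simp only [Finset.mem_union, Finset.mem_insert]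
        tauto) htop.2 (fun y' h1 h2 h3 => H y' h1 (fun i hi => h2 i (Finset.mem_insert_of_mem hi))
          (Or.inr ⟨by rw [h2 j (Finset.mem_insert_self _ _)]; exact htop.1, h3⟩)) _ h4
    have h6 : x = (x + c • (y - z)) - c • (y - z) := by abel
    rw [h6]
    exact Γ.sub_mem h5 (Γ.nsmul_mem hyΓ c)

end

variable {q r : ℕ}

/-- one of the degrees -/
def pr (k : Fin q) : ((Fin q → ℤ) × (Fin r → ℤ)) →+ (ℤ × (Fin r → ℤ)) where
  toFun ρ := (ρ.1 k, ρ.2)
  map_zero' := rfl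
  map_add' _ _ := rfl

/-- forget the degrees -/
def p0 : ((Fin q → ℤ) × (Fin r → ℤ)) →+ (ℤ × (Fin r → ℤ)) where
  toFun ρ := (0, ρ.2)
  map_zero' := rfl
  map_add' _ _ := by simp

/-- the image of `R` -/
def LamM (R : AddSubgroup ((Fin q → ℤ) × (Fin r → ℤ))) (e : Fin r → ℕ) :
    AddSubgroup (∀ i, ZMod (e i)) := Lam (R.map p0) e

theorem LamM_eq (R : AddSubgroup ((Fin q → ℤ) × (Fin r → ℤ))) (e : Fin r → ℕ) (k : Fin q) :
    Lam (R.map (pr k)) e = LamM R e := by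
  rw [LamM, Lam, Lam, AddSubgroup.map_map, AddSubgroup.map_map]
  rfl

/-- the standing assumptions -/
structure MDat (R : AddSubgroup ((Fin q → ℤ) × (Fin r → ℤ))) (δ : Fin r → Fin q → ℕ)
    (e : Fin r → ℕ) (n : ℕ) : Prop where
  two : ∀ i, 2 ≤ e i
  pat : ∀ k, (∀ i, 0 < δ i k) ∨ (∀ i, δ i k = 0)
  rel : ∀ i, (((fun k => -(δ i k : ℤ)), Pi.single i (e i : ℤ)) : (Fin q → ℤ) × (Fin r → ℤ)) ∈ R
  deg : ∀ ρ ∈ R, ∀ k, (ρ.1 k : ℚ) + ∑ i, (ρ.2 i : ℚ) * (δ i k / e i) = 0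
  sur : ∀ I : Finset (Fin r), I.card ≤ n → ∀ i ∈ I,
    ∃ ρ ∈ LamM R e, ρ i = 1 ∧ ∀ i' ∈ I, i' ≠ i → ρ i' = 0

variable {R : AddSubgroup ((Fin q → ℤ) × (Fin r → ℤ))} {δ : Fin r → Fin q → ℕ} {e : Fin r → ℕ}
  {n : ℕ}

theorem MDat.neZero (h : MDat R δ e n) (i : Fin r) : NeZero (e i) :=
  ⟨by have := h.two i; omega⟩

theorem MDat.dat (h : MDat R δ e n) {k : Fin q} (hk : ∀ i, 0 < δ i k) :
    Dat (R.map (pr k)) (fun i => δ i k) e n := by
  refine ⟨hk, h.two, fun i => ⟨_, h.rel i, rfl⟩, ?_, ?_⟩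
  · rintro _ ⟨ρ, hρ, rfl⟩
    exact h.deg ρ hρ k
  · intro I hI i hi
    rw [LamM_eq]
    exact h.sur I hI i hi

/-- prescribed values -/
theorem MDat.exists_pre (h : MDat R δ e n) (x : ∀ i, ZMod (e i)) (I : Finset (Fin r))
    (hI : I.card ≤ n) (b : ∀ i, ZMod (e i)) :
    ∃ z, z - x ∈ LamM R e ∧ ∀ i ∈ I, z i = b i := by
  classical
  have hne := h.neZero
  have h1 := h.sur I hI
  choose! ρ hρ hρ1 hρ0 using h1
  refine ⟨x + ∑ i ∈ I, (b i - x i).val • ρ i, ?_, ?_⟩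
  · rw [add_sub_cancel_left]
    exact (LamM R e).sum_mem fun i hi => (LamM R e).nsmul_mem (hρ i hi) _
  · intro i hi
    rw [Pi.add_apply, Finset.sum_apply, Finset.sum_eq_single i]
    · rw [Pi.smul_apply, hρ1 i hi, nsmul_eq_mul, mul_one, ZMod.natCast_zmod_val]
      ring
    · intro j hj hji
      rw [Pi.smul_apply, hρ0 j hj i hi hji.symm, smul_zero]
    · intro h2
      exact absurd hi h2

/-- the class `c` with one of its degrees -/
def cls (c : (Fin q → ℤ) × (Fin r → ℤ)) (k : Fin q) : ℤ × (Fin r → ℤ) := (c.1 k, c.2)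

theorem MDat.exists_L (h : MDat R δ e n) (c : (Fin q → ℤ) × (Fin r → ℤ)) (y : ∀ i, ZMod (e i))
    (hy : y - x0 e ((0, c.2) : ℤ × (Fin r → ℤ)) ∈ LamM R e) :
    ∃ L : Fin q → ℤ, (((fun k => c.1 k - L k), fun i => c.2 i - (aOf y i : ℤ)) :
        (Fin q → ℤ) × (Fin r → ℤ)) ∈ R ∧
      ∀ k, (L k : ℚ) = bet (fun i => δ i k) e (cls c k) + ∑ i, ((y i).val : ℚ) * (δ i k / e i) := by
  classical
  have hne := h.neZero
  obtain ⟨_, ⟨ρ, hρ, rfl⟩, hρy⟩ := hy
  have h1 : ∀ i, ∃ q : ℤ, c.2 i - (aOf y i : ℤ) = ρ.2 i + q * e i := by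
    intro i
    have h2 := congrFun hρy i
    have h3 : ((ρ.2 i : ℤ) : ZMod (e i)) = y i - ((e i - 1 - c.2 i : ℤ) : ZMod (e i)) := h2
    have h4 : (aOf y i : ℤ) = e i - 1 - (y i).val := by
      have h5 := ZMod.val_lt (y i)
      rw [aOf]
      omega
    have h5 : ((c.2 i - (aOf y i : ℤ) : ℤ) : ZMod (e i)) = ((ρ.2 i : ℤ) : ZMod (e i)) := by
      rw [h3, h4]
      push_cast
      rw [ZMod.natCast_zmod_val]
      ring
    rw [ZMod.intCast_eq_intCast_iff_dvd_sub] at h5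
    obtain ⟨q, hq⟩ := h5
    exact ⟨-q, by linarith⟩
  choose w hw using h1
  set σ : (Fin q → ℤ) × (Fin r → ℤ) := ρ + ∑ i, w i • (((fun k => -(δ i k : ℤ)),
    Pi.single i (e i : ℤ)) : (Fin q → ℤ) × (Fin r → ℤ)) with hσ
  have hσR : σ ∈ R := R.add_mem hρ (R.sum_mem fun i _ => R.zsmul_mem (h.rel i) _)
  have hσ2 : ∀ i, σ.2 i = c.2 i - (aOf y i : ℤ) := by
    intro i
    rw [hw i, hσ, Prod.snd_add, Pi.add_apply, Prod.snd_sum, Finset.sum_apply,
      Finset.sum_eq_single i]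
    · simp
    · intro j _ hji
      simp [hji.symm]
    · intro hi; exact absurd (Finset.mem_univ i) hi
  refine ⟨fun k => c.1 k - σ.1 k, ?_, fun k => ?_⟩
  · have h2 : (((fun k => c.1 k - (c.1 k - σ.1 k)), fun i => c.2 i - (aOf y i : ℤ)) :
        (Fin q → ℤ) × (Fin r → ℤ)) = σ := by
      refine Prod.ext ?_ ?_
      · funext k
        simp
      · funext i
        exact (hσ2 i).symm
    rw [h2]
    exact hσR
  · have h2 := h.deg σ hσR k
    rw [bet, cls]
    push_cast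
    have h3 : ∑ i, ((c.2 i : ℚ) - (e i - 1)) * (δ i k / e i) + ∑ i, ((y i).val : ℚ) * (δ i k / e i)
        = ∑ i, (σ.2 i : ℚ) * (δ i k / e i) := by
      rw [← Finset.sum_add_distrib]
      refine Finset.sum_congr rfl fun i _ => ?_
      rw [hσ2 i]
      have h4 : ((aOf y i : ℕ) : ℚ) = e i - 1 - (y i).val := by
        have h5 := ZMod.val_lt (y i)
        have h6 : aOf y i + 1 + (y i).val = e i := by rw [aOf]; omega
        have h7 : ((aOf y i : ℕ) : ℚ) + 1 + (y i).val = e i := by exact_mod_cast h6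
        linarith
      push_cast
      rw [h4]
      ring
    linarith

/-- the condition for a degree of the class `c` -/
def Big (δ : Fin r → Fin q → ℕ) (e : Fin r → ℕ) (n : ℕ) (c : (Fin q → ℤ) × (Fin r → ℤ)) : Prop :=
  ∀ k, ((∀ i, 0 < δ i k) ∧ ∃ M : ℕ, M ≠ 0 ∧ (∀ j, e j ∣ M * δ j k) ∧
      (∀ p : ℕ, p.Prime → p ∣ M →
        n + 1 ≤ (Finset.univ.filter (fun j => p ^ M.factorization p ∣ e j)).card) ∧
      -(n : ℚ) * M + n + 1 ≤ M * bet (fun i => δ i k) e (cls c k)) ∨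
    ((∀ i, δ i k = 0) ∧ 1 ≤ c.1 k)

/-- the classes of the monomials which do not vanish on `I` -/
def GoodM (R : AddSubgroup ((Fin q → ℤ) × (Fin r → ℤ))) (e : Fin r → ℕ)
    (c : (Fin q → ℤ) × (Fin r → ℤ)) (I : Finset (Fin r)) (y : ∀ i, ZMod (e i)) : Prop :=
  (∀ i ∈ I, aOf y i = 0) ∧ ∃ L : Fin q → ℤ, (∀ k, 0 ≤ L k) ∧
    (((fun k => c.1 k - L k), fun i => c.2 i - (aOf y i : ℤ)) : (Fin q → ℤ) × (Fin r → ℤ)) ∈ R

theorem bet_zero {e : Fin r → ℕ} {δ : Fin r → Fin q → ℕ} {k : Fin q} (h0 : ∀ i, δ i k = 0)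
    (c : (Fin q → ℤ) × (Fin r → ℤ)) : bet (fun i => δ i k) e (cls c k) = c.1 k := by
  rw [bet, cls, Finset.sum_eq_zero, add_zero]
  intro i _
  rw [h0 i]
  simp

/-- monomials with prescribed exponents on `I` -/
theorem MDat.E12 (h : MDat R δ e n) (c : (Fin q → ℤ) × (Fin r → ℤ)) (I : Finset (Fin r))
    (hI : I.card ≤ n) (b : Fin r → ℕ) (hb : ∀ i ∈ I, b i ≤ e i - 1) :
    ∃ (L : Fin q → ℤ) (a : Fin r → ℕ), (∀ i ∈ I, a i = b i) ∧
      (((fun k => c.1 k - L k), fun i => c.2 i - (a i : ℤ)) : (Fin q → ℤ) × (Fin r → ℤ)) ∈ R ∧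
      (∀ k, (∀ i, 0 < δ i k) → ∀ M : ℕ, M ≠ 0 → (∀ j, e j ∣ M * δ j k) →
        (∀ p : ℕ, p.Prime → p ∣ M →
          n + 1 ≤ (Finset.univ.filter (fun j => p ^ M.factorization p ∣ e j)).card) →
        M * bet (fun i => δ i k) e (cls c k) + ∑ i ∈ I, (((e i - 1 - b i : ℕ) : ℚ) * wt e M i)
        + (∑ i ∈ I, ((wt e M i : ℚ) - 1) + ((n : ℚ) - I.card) * (M - 1)) ≤ M * L k) ∧
      ∀ k, (∀ i, δ i k = 0) → L k = c.1 k := by
  classical
  have hne := h.neZero
  obtain ⟨l, hnd, hlI, hlu, htot⟩ := exists_list' (LamM R e) n h.sur I hI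
  obtain ⟨z, hz1, hz2⟩ := h.exists_pre (x0 e ((0, c.2) : ℤ × (Fin r → ℤ))) I hI
    (fun i => ((e i - 1 - b i : ℕ) : ZMod (e i)))
  obtain ⟨y, hy1, hy2, hy3⟩ := exists_topE (LamM R e) l I z
  have hyx : y - x0 e ((0, c.2) : ℤ × (Fin r → ℤ)) ∈ LamM R e := by
    have : y - x0 e ((0, c.2) : ℤ × (Fin r → ℤ)) =
      (y - z) + (z - x0 e ((0, c.2) : ℤ × (Fin r → ℤ))) := by abel
    rw [this]
    exact (LamM R e).add_mem hy1 hz1
  obtain ⟨L, hL1, hL2⟩ := h.exists_L c y hyx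
  have hval : ∀ i ∈ I, (y i).val = e i - 1 - b i := by
    intro i hi
    rw [hy2 i hi, hz2 i hi]
    exact val_cast _
  refine ⟨L, aOf y, ?_, hL1, ?_, ?_⟩
  · intro i hi
    rw [aOf, hval i hi]
    have := hb i hi
    omega
  · intro k hk M hM hd hF
    have h1 := (h.dat hk).L_ge hM hd y I l hnd hlI
    have h2 := TopE.sum (M := M) l I hy3
    have h3 : ∑ i ∈ I, ((y i).val : ℚ) * wt e M i
        = ∑ i ∈ I, (((e i - 1 - b i : ℕ) : ℚ) * wt e M i) :=
      Finset.sum_congr rfl fun i hi => by rw [hval i hi]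
    rw [h3] at h1
    have h4 := htot M hM hF
    rw [hL2 k, mul_add]
    linarith
  · intro k hk
    have h1 := hL2 k
    rw [bet_zero hk, Finset.sum_eq_zero, add_zero] at h1
    · exact_mod_cast h1
    · intro i _
      rw [hk i]
      simp

theorem wt_ge_one' (h : MDat R δ e n) {M : ℕ} (hM : M ≠ 0) (i : Fin r) :
    (1 : ℚ) ≤ wt e M i := by
  have hne := h.neZero i
  have h1 : 1 ≤ wt e M i := by
    rw [wt]
    exact Nat.div_pos (Nat.le_of_dvd (Nat.pos_of_ne_zero hM) (Nat.gcd_dvd_left _ _))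
      (Nat.gcd_pos_of_pos_left _ (Nat.pos_of_ne_zero hM))
  exact_mod_cast h1

theorem wt_sum_ge' (h : MDat R δ e n) {M : ℕ} (i : Fin r) :
    (M : ℚ) - 1 ≤ ((e i - 1 : ℕ) : ℚ) * wt e M i + ((wt e M i : ℚ) - 1) := by
  have hne := h.neZero i
  have h1 := wt_mul_ge (m := fun _ : Fin r => e i) M i
  have h2 : (M : ℚ) ≤ e i * wt e M i := by exact_mod_cast h1
  have h3 : ((e i - 1 : ℕ) : ℚ) = (e i : ℚ) - 1 := by
    have := h.two i
    rw [Nat.cast_sub (by omega)]
    norm_num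
  rw [h3]
  linarith

/-- A monomial which does not vanish on `I`, with a coefficient of positive degrees. -/
theorem MDat.E1 (h : MDat R δ e n) {c : (Fin q → ℤ) × (Fin r → ℤ)} (hβ : Big δ e n c)
    (I : Finset (Fin r)) (hI : I.card ≤ n) :
    ∃ (L : Fin q → ℤ) (a : Fin r → ℕ), (∀ k, 1 ≤ L k) ∧ (∀ i ∈ I, a i = 0) ∧
      (((fun k => c.1 k - L k), fun i => c.2 i - (a i : ℤ)) :
        (Fin q → ℤ) × (Fin r → ℤ)) ∈ R := by
  obtain ⟨L, a, h1, h2, h3, h3'⟩ := h.E12 c I hI (fun _ => 0) (fun i _ => Nat.zero_le _)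
  refine ⟨L, a, fun k => ?_, h1, h2⟩
  rcases hβ k with ⟨hk, M, hM, hd, hF, hβ⟩ | ⟨hk, h0⟩
  · have h3 := h3 k hk M hM hd hF
    have h4 : ∑ i ∈ I, (((e i - 1 - 0 : ℕ) : ℚ) * wt e M i) + ∑ i ∈ I, ((wt e M i : ℚ) - 1)
        ≥ I.card * ((M : ℚ) - 1) := by
      rw [← Finset.sum_add_distrib]
      have h5 : (I.card : ℚ) * ((M : ℚ) - 1) = ∑ i ∈ I, ((M : ℚ) - 1) := by
        rw [Finset.sum_const, nsmul_eq_mul]
      rw [h5]
      refine Finset.sum_le_sum fun i _ => ?_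
      simpa using wt_sum_ge' h i
    have hMpos : (0 : ℚ) < M := by exact_mod_cast Nat.pos_of_ne_zero hM
    have h6 : (1 : ℚ) ≤ M * L k := by nlinarith
    have h7 : (0 : ℚ) < L k := by
      by_contra hcon
      push Not at hcon
      nlinarith
    exact_mod_cast (show (0 : ℤ) < L k by exact_mod_cast h7)
  · rw [h3' k hk]
    exact h0

/-- A monomial vanishing at exactly one of the divisors `D_i`, `i ∈ I`, to the first order. -/
theorem MDat.E2 (h : MDat R δ e n) {c : (Fin q → ℤ) × (Fin r → ℤ)} (hβ : Big δ e n c)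
    (I : Finset (Fin r)) (hI : I.card ≤ n) (i₀ : Fin r) (hi₀ : i₀ ∈ I) :
    ∃ (L : Fin q → ℤ) (a : Fin r → ℕ), (∀ k, 0 ≤ L k) ∧ a i₀ = 1 ∧
      (∀ i ∈ I, i ≠ i₀ → a i = 0) ∧
      (((fun k => c.1 k - L k), fun i => c.2 i - (a i : ℤ)) :
        (Fin q → ℤ) × (Fin r → ℤ)) ∈ R := by
  classical
  obtain ⟨L, a, h1, h2, h3, h3'⟩ := h.E12 c I hI (fun i => if i = i₀ then 1 else 0)
    (fun i _ => by
      have := h.two i
      split_ifs <;> omega)
  refine ⟨L, a, fun k => ?_, by rw [h1 i₀ hi₀, if_pos rfl],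
    fun i hi hne => by rw [h1 i hi, if_neg hne], h2⟩
  rcases hβ k with ⟨hk, M, hM, hd, hF, hβ⟩ | ⟨hk, h0⟩
  · have h3 := h3 k hk M hM hd hF
    have hMpos : (0 : ℚ) < M := by exact_mod_cast Nat.pos_of_ne_zero hM
    have h4 : ((I.card : ℚ) - 1) * ((M : ℚ) - 1) ≤
        ∑ i ∈ I, (((e i - 1 - (if i = i₀ then 1 else 0) : ℕ) : ℚ) * wt e M i)
          + ∑ i ∈ I, ((wt e M i : ℚ) - 1) := by
      rw [← Finset.sum_add_distrib, ← Finset.add_sum_erase _ _ hi₀]
      have h5 : ((I.card : ℚ) - 1) * ((M : ℚ) - 1) = ∑ i ∈ I.erase i₀, ((M : ℚ) - 1) := by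
        rw [Finset.sum_const, nsmul_eq_mul, Finset.card_erase_of_mem hi₀,
          Nat.cast_sub (Finset.card_pos.2 ⟨i₀, hi₀⟩)]
        norm_num
      rw [h5]
      have h6 : (0 : ℚ) ≤ ((e i₀ - 1 - (if i₀ = i₀ then 1 else 0) : ℕ) : ℚ) * wt e M i₀
          + ((wt e M i₀ : ℚ) - 1) := by
        have h7 := wt_ge_one' h hM i₀
        have h8 : (0 : ℚ) ≤ ((e i₀ - 1 - (if i₀ = i₀ then 1 else 0) : ℕ) : ℚ) * wt e M i₀ := by
          positivity
        linarith
      have h7 : ∑ i ∈ I.erase i₀, ((M : ℚ) - 1) ≤ ∑ i ∈ I.erase i₀,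
          (((e i - 1 - (if i = i₀ then 1 else 0) : ℕ) : ℚ) * wt e M i + ((wt e M i : ℚ) - 1)) := by
        refine Finset.sum_le_sum fun i hi => ?_
        rw [if_neg (Finset.ne_of_mem_erase hi)]
        simpa using wt_sum_ge' h i
      linarith
    have h6 : (2 : ℚ) - M ≤ M * L k := by nlinarith
    have h7 : (-1 : ℚ) < L k := by
      by_contra hcon
      push Not at hcon
      nlinarith
    have h8 : (-1 : ℤ) < L k := by exact_mod_cast h7
    omega
  · rw [h3' k hk]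
    omega

/-- The differences of the classes of the monomials generate. -/
theorem MDat.E3 (h : MDat R δ e n) {c : (Fin q → ℤ) × (Fin r → ℤ)} (hβ : Big δ e n c)
    (I : Finset (Fin r)) (hI : I.card ≤ n) (Γ : AddSubgroup (∀ i, ZMod (e i)))
    (hΓ : ∀ y y', GoodM R e c I y → GoodM R e c I y' → y - y' ∈ Γ) :
    ∀ x ∈ van (LamM R e) I 0, x ∈ Γ := by
  classical
  have hne := h.neZero
  obtain ⟨l, hnd, hlI, hlu, htot⟩ := exists_list' (LamM R e) n h.sur I hI
  obtain ⟨z₀, hz1, hz2⟩ := h.exists_pre (x0 e ((0, c.2) : ℤ × (Fin r → ℤ))) I hI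
    (fun i => ((e i - 1 - 0 : ℕ) : ZMod (e i)))
  obtain ⟨z, hy1, hy2, hy3⟩ := exists_topE (LamM R e) l I z₀
  have hzx : z - x0 e ((0, c.2) : ℤ × (Fin r → ℤ)) ∈ LamM R e := by
    have : z - x0 e ((0, c.2) : ℤ × (Fin r → ℤ)) =
      (z - z₀) + (z₀ - x0 e ((0, c.2) : ℤ × (Fin r → ℤ))) := by abel
    rw [this]
    exact (LamM R e).add_mem hy1 hz1
  have hgood : ∀ y, y - z ∈ LamM R e → (∀ i ∈ I, y i = z i) → Near (LamM R e) y I l →
      GoodM R e c I y := by
    intro y hyz hyI hnear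
    have hval : ∀ i ∈ I, (y i).val = e i - 1 - 0 := by
      intro i hi
      rw [hyI i hi, hy2 i hi, hz2 i hi]
      exact val_cast _
    have hyx : y - x0 e ((0, c.2) : ℤ × (Fin r → ℤ)) ∈ LamM R e := by
      have : y - x0 e ((0, c.2) : ℤ × (Fin r → ℤ)) =
        (y - z) + (z - x0 e ((0, c.2) : ℤ × (Fin r → ℤ))) := by abel
      rw [this]
      exact (LamM R e).add_mem hyz hzx
    obtain ⟨L, hL1, hL2⟩ := h.exists_L c y hyx
    refine ⟨fun i hi => by rw [aOf, hval i hi]; omega, L, fun k => ?_, hL1⟩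
    rcases hβ k with ⟨hk, M, hM, hd, hF, hβ⟩ | ⟨hk, h0⟩
    · have hMpos : (0 : ℚ) < M := by exact_mod_cast Nat.pos_of_ne_zero hM
      have hsum := Near.sum hM l I hnear
      have htot' := htot M hM hF
      have h1 := (h.dat hk).L_ge hM hd y I l hnd hlI
      have h3 : ∑ i ∈ I, ((y i).val : ℚ) * wt e M i
          = ∑ i ∈ I, (((e i - 1 : ℕ) : ℚ) * wt e M i) :=
        Finset.sum_congr rfl fun i hi => by rw [hval i hi, Nat.sub_zero]
      rw [h3] at h1
      have h4 : ∑ i ∈ I, (((e i - 1 : ℕ) : ℚ) * wt e M i) + ∑ i ∈ I, ((wt e M i : ℚ) - 1)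
          ≥ I.card * ((M : ℚ) - 1) := by
        rw [← Finset.sum_add_distrib]
        have h5 : (I.card : ℚ) * ((M : ℚ) - 1) = ∑ i ∈ I, ((M : ℚ) - 1) := by
          rw [Finset.sum_const, nsmul_eq_mul]
        rw [h5]
        exact Finset.sum_le_sum fun i _ => wt_sum_ge' h i
      have h6 : (1 : ℚ) - M < M * L k := by
        rw [hL2 k, mul_add]
        nlinarith
      have h7 : (-1 : ℚ) < L k := by
        by_contra hcon
        push Not at hcon
        nlinarith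
      have h8 : (-1 : ℤ) < L k := by exact_mod_cast h7
      omega
    · have h1 := hL2 k
      rw [bet_zero hk, Finset.sum_eq_zero, add_zero] at h1
      · have h2 : L k = c.1 k := by exact_mod_cast h1
        omega
      · intro i _
        rw [hk i]
        simp
  have hzgood : GoodM R e c I z := hgood z (by rw [sub_self]; exact (LamM R e).zero_mem)
    (fun _ _ => rfl) (TopE.near l I hy3)
  exact genM (LamM R e) z Γ l I hlu hy3 fun y h1 h2 h3 => hΓ y z (hgood y h1 h2 h3) hzgood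

end Pool.Agent.Run7.h30.MF
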