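import Pool.Agent.Run7.h30.MF.Main

/-!
# Abelian covers of subvarieties of products of projective spaces

Let `T` be a smooth projective variety and `H_1, …, H_q` globally generated line bundles on `T` which
together embed `T` in a product of projective spaces `P^{N_1} × … × P^{N_q}`; the coordinates are
`x_i`, and `color i` is the factor to which `x_i` belongs. Let `D_1, …, D_r` be divisors `F_i = 0` of
`T`, `F_i` a form of degrees `δ_{i1}, …, δ_{iq}`, crossing normally. We consider the smooth abelian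
covers `π : X → T` branched along the `D_i` with indices `e_i ≥ 2` whose building data are
combinations of the `H_k`. Such a cover is the quotient of the cone

  `{(x, z) : x ∈ T, z_i ^ e_i = F_i(x)}`

by a group `𝓗 ⊆ (ℂˣ)^q × (ℂˣ)^r` acting freely, the common kernel of a group `R` of characters
`(l, u) : (s, t) ↦ ∏ s_k ^ (l_k) ∏ t_i ^ (u_i)`, where `R` contains the characters `(-δ_i, e_i)` and
lies in the kernel of all the degrees. A character `ρ = (l, u)` gives the line bundle `O(ρ)` on `X`,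
whose sections are the functions on the cone which `𝓗` multiplies by this character. Its degrees are
the numbers `l_k + ∑ u_i δ_{ik} / e_i`: a multiple of `O(ρ)` is the pullback of the corresponding
multiple of the combination of the `H_k` with these coefficients, so that `O(ρ)` is nef if all its
degrees are not negative; if `T` is a product of projective spaces `O(ρ)` is ample (nef) if and only
if all its degrees are positive (not negative). If `K_T = ∑ κ_k H_k` then `K_X = O(κ, e - 1)`, since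
the divisor of the section `z_i` of `O(0, 1_i)` is the reduced preimage of `D_i`.
-/

set_option autoImplicit false

namespace Pool.Agent.Run7.h30.MF

open MvPolynomial Pool.Agent.K3h47.FU

/-- The character `(s, t) ↦ ∏ s_k ^ (l_k) ∏ t_i ^ (u_i)` given by `ρ = (l, u)`. -/
def character {q r : ℕ} (ρ : (Fin q → ℤ) × (Fin r → ℤ)) (s : Fin q → ℂˣ) (t : Fin r → ℂˣ) : ℂˣ :=
  (∏ k, s k ^ ρ.1 k) * ∏ i, t i ^ ρ.2 i

/-- The degree `l_k + ∑ u_i δ_{ik} / e_i` of the class `(l, u)`. -/
def degree {q r : ℕ} (δ : Fin r → Fin q → ℕ) (e : Fin r → ℕ) (ρ : (Fin q → ℤ) × (Fin r → ℤ))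
    (k : Fin q) : ℚ :=
  (ρ.1 k : ℚ) + ∑ i, (ρ.2 i : ℚ) * (δ i k / e i)

/-- `p` is a form of degree `d k` in the variables of colour `k`, for all `k`. -/
def Multihomogeneous {N q : ℕ} (color : Fin N → Fin q) (p : MvPolynomial (Fin N) ℂ)
    (d : Fin q → ℕ) : Prop :=
  IsWeightedHomogeneous (fun i => (Pi.single (color i) 1 : Fin q → ℕ)) p d

/-- `x` represents a point of the closed subset with the equations `G_j` of the product of the
projective spaces with the coordinates of colour `k`. -/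
def OnBase {N q c : ℕ} (color : Fin N → Fin q) (G : Fin c → MvPolynomial (Fin N) ℂ)
    (x : Fin N → ℂ) : Prop :=
  (∀ k, ∃ i, color i = k ∧ x i ≠ 0) ∧ ∀ j, eval x (G j) = 0

/-- A point of the cone over the cover: `x` is a point of `T`, and `z_i ^ e_i = F_i(x)`. -/
def OnCone {N q c r : ℕ} (color : Fin N → Fin q) (G : Fin c → MvPolynomial (Fin N) ℂ)
    (F : Fin r → MvPolynomial (Fin N) ℂ) (e : Fin r → ℕ) (x : Fin N → ℂ) (z : Fin r → ℂ) : Prop :=
  OnBase color G x ∧ ∀ i, z i ^ e i = eval x (F i)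

/-- The data of an abelian cover `X → T`. -/
structure Cover (N q c r n : ℕ) where
  /-- the factor to which a coordinate belongs -/
  color : Fin N → Fin q
  /-- the equations of `T` -/
  G : Fin c → MvPolynomial (Fin N) ℂ
  /-- their degrees -/
  g : Fin c → Fin q → ℕ
  homogeneousBase : ∀ j, Multihomogeneous color (G j) (g j)
  /-- the equations of the branch divisors `D_i` -/
  F : Fin r → MvPolynomial (Fin N) ℂ
  /-- their degrees -/
  δ : Fin r → Fin q → ℕ
  homogeneous : ∀ i, Multihomogeneous color (F i) (δ i)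
  /-- each `H_k` occurs in all branch divisors, or in none -/
  pattern : ∀ k, (∀ i, 0 < δ i k) ∨ (∀ i, δ i k = 0)
  /-- the ramification indices -/
  e : Fin r → ℕ
  two : ∀ i, 2 ≤ e i
  /-- the characters which are trivial on the group `𝓗` -/
  R : AddSubgroup ((Fin q → ℤ) × (Fin r → ℤ))
  /-- the equations `z_i ^ e_i = F_i(x)` are preserved by `𝓗` -/
  rel : ∀ i, (((fun k => -(δ i k : ℤ)), Pi.single i (e i : ℤ)) : (Fin q → ℤ) × (Fin r → ℤ)) ∈ R
  /-- `𝓗 → (ℂˣ)^q`, `(s, t) ↦ s`, has finite kernel and is surjective -/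
  deg : ∀ ρ ∈ R, ∀ k, degree δ e ρ k = 0
  /-- `𝓗` acts freely -/
  free : ∀ x z, OnCone color G F e x z → ∀ (s : Fin q → ℂˣ) (t : Fin r → ℂˣ),
    (∀ ρ ∈ R, character ρ s t = 1) → (∀ i, (s (color i) : ℂ) * x i = x i) →
    (∀ i, (t i : ℂ) * z i = z i) → s = 1 ∧ t = 1
  /-- any `n` of the divisors `D_i` meet on `T` (they are ample, or pulled back from a variety of
  dimension `n` on which they are ample) -/
  meet : ∀ I : Finset (Fin r), I.card ≤ n → ∃ x, OnBase color G x ∧ ∀ i ∈ I, eval x (F i) = 0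
  /-- at most `n` of the divisors `D_i` pass through a point of `T` (normal crossings) -/
  few : ∀ x z, OnCone color G F e x z → (Finset.univ.filter (fun i => z i = 0)).card ≤ n

variable {N q c r n : ℕ}

/-- `(s, t)` is an element of the group `𝓗`. -/
def Cover.InGroup (D : Cover N q c r n) (s : Fin q → ℂˣ) (t : Fin r → ℂˣ) : Prop :=
  ∀ ρ ∈ D.R, character ρ s t = 1

/-- The value of `Φ` at `(x, z)`. -/
noncomputable def value (x : Fin N → ℂ) (z : Fin r → ℂ) (Φ : MvPolynomial (Fin N ⊕ Fin r) ℂ) : ℂ :=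
  eval (Sum.elim x z) Φ

/-- `Φ` is a section of the line bundle `O(ρ)` on `X`. -/
def Cover.IsSection (D : Cover N q c r n) (ρ : (Fin q → ℤ) × (Fin r → ℤ))
    (Φ : MvPolynomial (Fin N ⊕ Fin r) ℂ) : Prop :=
  ∀ (s : Fin q → ℂˣ) (t : Fin r → ℂˣ), D.InGroup s t → ∀ (x : Fin N → ℂ) (z : Fin r → ℂ),
    value (fun i => (s (D.color i) : ℂ) * x i) (fun i => (t i : ℂ) * z i) Φ
      = character ρ s t * value x z Φ

/-- `K_X + A_1 + … + A_m`, if `K_T = ∑ κ_k H_k`. -/
def Cover.adjoint (D : Cover N q c r n) (κ : Fin q → ℤ) {m : ℕ}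
    (A : Fin m → (Fin q → ℤ) × (Fin r → ℤ)) : (Fin q → ℤ) × (Fin r → ℤ) :=
  (κ, fun i => (D.e i : ℤ) - 1) + ∑ j, A j

/-- the number of the `A_j` whose degree `k` is positive -/
def Cover.number (D : Cover N q c r n) {m : ℕ} (A : Fin m → (Fin q → ℤ) × (Fin r → ℤ))
    (k : Fin q) : ℕ :=
  (Finset.univ.filter (fun j => 0 < degree D.δ D.e (A j) k)).card

theorem Cover.mdat (D : Cover N q c r n) : MDat D.R D.δ D.e n := by
  classical
  refine ⟨D.two, D.pattern, D.rel, D.deg, fun I hI => ?_⟩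
  have he : ∀ i, D.e i ≠ 0 := fun i => by have := D.two i; omega
  obtain ⟨x, hx, hI0⟩ := D.meet I hI
  have hz : ∀ i, ∃ z : ℂ, z ^ D.e i = eval x (D.F i) := fun i =>
    IsAlgClosed.exists_pow_nat_eq _ (Nat.pos_of_ne_zero (he i))
  choose z hz using hz
  refine sur_of_freeM he I fun t ht1 ht2 i => ?_
  have h1 := (D.free x z ⟨hx, hz⟩ 1 t ht2 (fun k => by
      rw [Pi.one_apply, Units.val_one, one_mul])
    (fun i => by
      by_cases hi : i ∈ I
      · have h2 := hz i
        rw [hI0 i hi] at h2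
        rw [(pow_eq_zero_iff (he i)).1 h2, mul_zero]
      · rw [ht1 i hi, Units.val_one, one_mul])).2
  rw [h1]
  rfl

theorem degree_add (δ : Fin r → Fin q → ℕ) (e : Fin r → ℕ) (ρ σ : (Fin q → ℤ) × (Fin r → ℤ))
    (k : Fin q) : degree δ e (ρ + σ) k = degree δ e ρ k + degree δ e σ k := by
  simp only [degree, Prod.fst_add, Prod.snd_add, Pi.add_apply]
  push_cast
  simp only [add_mul, Finset.sum_add_distrib]
  ring

theorem degree_zero (δ : Fin r → Fin q → ℕ) (e : Fin r → ℕ) (k : Fin q) :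
    degree δ e 0 k = 0 := by
  simp [degree]

theorem degree_sum (δ : Fin r → Fin q → ℕ) (e : Fin r → ℕ) {m : ℕ}
    (A : Fin m → (Fin q → ℤ) × (Fin r → ℤ)) (k : Fin q) :
    degree δ e (∑ j, A j) k = ∑ j, degree δ e (A j) k := by
  classical
  induction m with
  | zero => simp [degree_zero]
  | succ m ih => rw [Fin.sum_univ_succ, Fin.sum_univ_succ, degree_add, ih]

theorem int_mul (D : Cover N q c r n) {M : ℕ} {k : Fin q} (hd : ∀ j, D.e j ∣ M * D.δ j k)
    (A : (Fin q → ℤ) × (Fin r → ℤ)) : ∃ a : ℤ, (M : ℚ) * degree D.δ D.e A k = a := by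
  choose w hw using hd
  refine ⟨M * A.1 k + ∑ i, A.2 i * w i, ?_⟩
  rw [degree, mul_add, Finset.mul_sum, Int.cast_add, Int.cast_sum, Int.cast_mul,
    Int.cast_natCast]
  congr 1
  refine Finset.sum_congr rfl fun i _ => ?_
  rw [Int.cast_mul, Int.cast_natCast]
  have h1 : (M : ℚ) * D.δ i k = D.e i * w i := by exact_mod_cast hw i
  have h2 : (D.e i : ℚ) ≠ 0 := by exact_mod_cast (D.mdat.neZero i).ne
  field_simp
  linear_combination (A.2 i : ℚ) * h1

/-- the lower bound for the sum of the degrees -/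
theorem sum_ge (D : Cover N q c r n) {M : ℕ} (hM : M ≠ 0) {k : Fin q}
    (hd : ∀ j, D.e j ∣ M * D.δ j k) {m : ℕ} (A : Fin m → (Fin q → ℤ) × (Fin r → ℤ))
    (hA : ∀ j, 0 ≤ degree D.δ D.e (A j) k) :
    (D.number A k : ℚ) ≤ M * degree D.δ D.e (∑ j, A j) k := by
  classical
  have hMpos : (0 : ℚ) < M := by exact_mod_cast Nat.pos_of_ne_zero hM
  rw [degree_sum, Finset.mul_sum, Cover.number, Finset.card_filter]
  push_cast
  refine Finset.sum_le_sum fun j _ => ?_
  split_ifs with h1
  · obtain ⟨a, ha⟩ := int_mul D hd (A j)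
    have h2 : (0 : ℚ) < a := by rw [← ha]; exact mul_pos hMpos h1
    have h3 : (1 : ℤ) ≤ a := by exact_mod_cast h2
    rw [ha]
    exact_mod_cast h3
  · exact mul_nonneg hMpos.le (hA j)

theorem bet_adjoint (D : Cover N q c r n) (κ : Fin q → ℤ) {m : ℕ}
    (A : Fin m → (Fin q → ℤ) × (Fin r → ℤ)) (k : Fin q) :
    bet (fun i => D.δ i k) D.e (cls (D.adjoint κ A) k) =
      κ k + degree D.δ D.e (∑ j, A j) k := by
  have h1 : (D.adjoint κ A).1 k = κ k + (∑ j, A j).1 k := rfl
  have h2 : ∀ i, (D.adjoint κ A).2 i = ((D.e i : ℤ) - 1) + (∑ j, A j).2 i := fun i => rfl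
  rw [bet, cls, degree, h1]
  have h3 : ∑ i, (((D.adjoint κ A).2 i : ℚ) - (D.e i - 1)) * ((D.δ i k : ℚ) / D.e i) =
      ∑ i, ((∑ j, A j).2 i : ℚ) * (D.δ i k / D.e i) := by
    refine Finset.sum_congr rfl fun i _ => ?_
    rw [h2]
    push_cast
    ring
  rw [h3]
  push_cast
  ring

/-- the condition of the main lemma, for the class `K_X + A_1 + … + A_m + (t, …, t)` -/
theorem big (D : Cover N q c r n) (κ : Fin q → ℤ) {m : ℕ}
    (A : Fin m → (Fin q → ℤ) × (Fin r → ℤ)) (hA : ∀ j k, 0 ≤ degree D.δ D.e (A j) k) (t : ℤ)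
    (ht : 0 ≤ t) (ht1 : t ≤ 1)
    (hκ : ∀ k, (∀ i, 0 < D.δ i k) → -((n : ℤ) + t) ≤ κ k)
    (hm : ∀ k, 1 - t - κ k ≤ D.number A k) :
    Big D.δ D.e n ((fun k => (D.adjoint κ A).1 k + t), (D.adjoint κ A).2) := by
  intro k
  rcases D.pattern k with hk | hk
  · left
    obtain ⟨M, hM, hd, hF⟩ := (D.mdat.dat hk).exists_M
    refine ⟨hk, M, hM, hd, hF, ?_⟩
    have h1 : bet (fun i => D.δ i k) D.e
        (cls ((fun k => (D.adjoint κ A).1 k + t), (D.adjoint κ A).2) k) =
        bet (fun i => D.δ i k) D.e (cls (D.adjoint κ A) k) + t := by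
      simp only [bet, cls]
      push_cast
      ring
    rw [h1, bet_adjoint]
    have h2 := sum_ge D hM hd A (fun j => hA j k)
    have h3 : (1 : ℚ) - t - κ k ≤ D.number A k := by exact_mod_cast hm k
    have h4 : -((n : ℚ) + t) ≤ κ k := by exact_mod_cast hκ k hk
    have h5 : (1 : ℚ) ≤ M := by exact_mod_cast Nat.one_le_iff_ne_zero.2 hM
    have h6 : 0 ≤ ((n : ℚ) + t + κ k) * (M - 1) := mul_nonneg (by linarith) (by linarith)
    have h7 : M * ((κ k : ℚ) + degree D.δ D.e (∑ j, A j) k + t) =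
        M * κ k + M * degree D.δ D.e (∑ j, A j) k + M * t := by ring
    rw [h7]
    nlinarith
  · right
    refine ⟨hk, ?_⟩
    have h2 := sum_ge D one_ne_zero (fun j => by rw [hk j]; simp) A (fun j => hA j k)
    rw [Nat.cast_one, one_mul] at h2
    have h3 : ∀ B : (Fin q → ℤ) × (Fin r → ℤ), degree D.δ D.e B k = B.1 k := by
      intro B
      rw [degree, Finset.sum_eq_zero (s := Finset.univ), add_zero]
      intro i _
      rw [hk i]
      simp
    rw [h3] at h2
    have h4 : (D.number A k : ℤ) ≤ (∑ j, A j).1 k := by exact_mod_cast h2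
    have h5 := hm k
    have h6 : (D.adjoint κ A).1 k = κ k + (∑ j, A j).1 k := rfl
    change 1 ≤ (D.adjoint κ A).1 k + t
    rw [h6]
    omega

end Pool.Agent.Run7.h30.MF
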