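import Pool.Agent.Run7.h30.MF.Arith

/-! Sections of line bundles on an abelian cover of a subvariety of a product of projective
spaces. -/

set_option autoImplicit false
set_option linter.unusedSectionVars false

namespace Pool.Agent.Run7.h30.MF

open MvPolynomial Pool.Agent.K3h47.FU

variable {N q r : ℕ}

/-- the character of the torus given by `ρ` -/
def chiM (ρ : (Fin q → ℤ) × (Fin r → ℤ)) (s : Fin q → ℂˣ) (t : Fin r → ℂˣ) : ℂˣ :=
  (∏ k, s k ^ ρ.1 k) * ∏ i, t i ^ ρ.2 i

theorem chiM_add (ρ σ : (Fin q → ℤ) × (Fin r → ℤ)) (s : Fin q → ℂˣ) (t : Fin r → ℂˣ) :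
    chiM (ρ + σ) s t = chiM ρ s t * chiM σ s t := by
  simp only [chiM, Prod.fst_add, Prod.snd_add, Pi.add_apply, zpow_add, Finset.prod_mul_distrib]
  exact mul_mul_mul_comm _ _ _ _

theorem chiM_zero (s : Fin q → ℂˣ) (t : Fin r → ℂˣ) :
    chiM (0 : (Fin q → ℤ) × (Fin r → ℤ)) s t = 1 := by
  simp [chiM]

theorem chiM_neg (ρ : (Fin q → ℤ) × (Fin r → ℤ)) (s : Fin q → ℂˣ) (t : Fin r → ℂˣ) :
    chiM (-ρ) s t = (chiM ρ s t)⁻¹ := by
  rw [eq_inv_iff_mul_eq_one, ← chiM_add, neg_add_cancel, chiM_zero]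

theorem chiM_congr {R : AddSubgroup ((Fin q → ℤ) × (Fin r → ℤ))} {s : Fin q → ℂˣ}
    {t : Fin r → ℂˣ} (h : ∀ ρ ∈ R, chiM ρ s t = 1) {ρ σ : (Fin q → ℤ) × (Fin r → ℤ)}
    (hρ : ρ - σ ∈ R) : chiM ρ s t = chiM σ s t := by
  have h1 := h _ hρ
  rw [sub_eq_add_neg, chiM_add, chiM_neg] at h1
  exact mul_inv_eq_one.1 h1

/-- `Φ` is multiplied by `s ^ L * ∏ t ^ a` -/
def BiM (col : Fin N → Fin q) (L : Fin q → ℕ) (a : Fin r → ℕ)
    (Φ : MvPolynomial (Fin N ⊕ Fin r) ℂ) : Prop :=
  ∀ (s : Fin q → ℂ) (t : Fin r → ℂ) (x : Fin N → ℂ) (z : Fin r → ℂ),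
    eval (Sum.elim (fun k => s (col k) * x k) (fun i => t i * z i)) Φ
      = (∏ k, s k ^ L k) * (∏ i, t i ^ a i) * eval (Sum.elim x z) Φ

theorem BiM.mul {col : Fin N → Fin q} {L L' : Fin q → ℕ} {a a' : Fin r → ℕ}
    {Φ Ψ : MvPolynomial (Fin N ⊕ Fin r) ℂ}
    (h : BiM col L a Φ) (h' : BiM col L' a' Ψ) : BiM col (L + L') (a + a') (Φ * Ψ) := by
  intro s t x z
  rw [map_mul, map_mul, h, h']
  simp only [Pi.add_apply, pow_add, Finset.prod_mul_distrib]
  ring

theorem BiM.one {col : Fin N → Fin q} :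
    BiM col 0 0 (1 : MvPolynomial (Fin N ⊕ Fin r) ℂ) := by
  intro s t x z
  simp

theorem BiM.pow {col : Fin N → Fin q} {L : Fin q → ℕ} {Φ : MvPolynomial (Fin N ⊕ Fin r) ℂ}
    (h : BiM col L 0 Φ) (k : ℕ) : BiM col (k • L) 0 (Φ ^ k) := by
  induction k with
  | zero => simpa using BiM.one
  | succ k ih =>
    have := ih.mul h
    rw [pow_succ, succ_nsmul]
    simpa using this

theorem BiM.prod {col : Fin N → Fin q} {ι : Type} (S : Finset ι) (L : ι → Fin q → ℕ)
    (Φ : ι → MvPolynomial (Fin N ⊕ Fin r) ℂ) (h : ∀ i ∈ S, BiM col (L i) 0 (Φ i)) :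
    BiM col (∑ i ∈ S, L i) 0 (∏ i ∈ S, Φ i) := by
  classical
  induction S using Finset.induction_on with
  | empty => simpa using BiM.one
  | insert i S hi ih =>
    rw [Finset.sum_insert hi, Finset.prod_insert hi]
    have := (h i (Finset.mem_insert_self i S)).mul
      (ih fun j hj => h j (Finset.mem_insert_of_mem hj))
    simpa using this

/-- the monomial in the `z` with exponents `a` -/
noncomputable def monoM (N : ℕ) (a : Fin r → ℕ) : MvPolynomial (Fin N ⊕ Fin r) ℂ :=
  ∏ i, X (Sum.inr i) ^ a i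

theorem eval_monoM (a : Fin r → ℕ) (x : Fin N → ℂ) (z : Fin r → ℂ) :
    eval (Sum.elim x z) (monoM N a) = ∏ i, z i ^ a i := by
  simp [monoM]

theorem BiM.mono (col : Fin N → Fin q) (a : Fin r → ℕ) : BiM col 0 a (monoM N a) := by
  intro s t x z
  rw [eval_monoM, eval_monoM]
  simp [mul_pow, Finset.prod_mul_distrib]

/-- the value of the part of colour `k` of the linear form `v` -/
noncomputable def lin (col : Fin N → Fin q) (v : Fin N → ℂ) (k : Fin q) (x : Fin N → ℂ) : ℂ :=
  ∑ i, (if col i = k then v i else 0) * x i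

/-- the linear form with coefficients `v` of colour `k` -/
noncomputable def lfM (r : ℕ) (col : Fin N → Fin q) (v : Fin N → ℂ) (k : Fin q) :
    MvPolynomial (Fin N ⊕ Fin r) ℂ :=
  ∑ i, C (if col i = k then v i else 0) * X (Sum.inl i)

theorem eval_lfM (col : Fin N → Fin q) (v : Fin N → ℂ) (k : Fin q) (x : Fin N → ℂ)
    (z : Fin r → ℂ) : eval (Sum.elim x z) (lfM r col v k) = lin col v k x := by
  simp only [lfM, lin, map_sum, map_mul, eval_C, eval_X, Sum.elim_inl]

theorem lin_smul (col : Fin N → Fin q) (v : Fin N → ℂ) (k : Fin q) (s : Fin q → ℂ)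
    (x : Fin N → ℂ) : lin col v k (fun i => s (col i) * x i) = s k * lin col v k x := by
  rw [lin, lin, Finset.mul_sum]
  refine Finset.sum_congr rfl fun i _ => ?_
  by_cases h : col i = k
  · rw [if_pos h, h]
    ring
  · rw [if_neg h]
    ring

theorem BiM.lf (col : Fin N → Fin q) (v : Fin N → ℂ) (k : Fin q) :
    BiM col (Pi.single k 1) 0 (lfM r col v k) := by
  classical
  intro s t x z
  rw [eval_lfM, eval_lfM, lin_smul]
  congr 1
  rw [Finset.prod_eq_single k]
  · simp
  · intro j _ hj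
    rw [Pi.single_eq_of_ne hj, pow_zero]
  · intro h
    exact absurd (Finset.mem_univ k) h

/-- a product of powers of linear forms -/
noncomputable def pw (r : ℕ) (col : Fin N → Fin q) (v : Fin N → ℂ) (L : Fin q → ℕ) :
    MvPolynomial (Fin N ⊕ Fin r) ℂ := ∏ k, lfM r col v k ^ L k

theorem BiM.pw (col : Fin N → Fin q) (v : Fin N → ℂ) (L : Fin q → ℕ) :
    BiM col L 0 (pw r col v L) := by
  classical
  have h := BiM.prod (col := col) (r := r) Finset.univ (fun k => L k • (Pi.single k 1 : Fin q → ℕ))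
    (fun k => lfM r col v k ^ L k) (fun k _ => (BiM.lf col v k).pow (L k))
  have h1 : ∑ k, L k • (Pi.single k 1 : Fin q → ℕ) = L := by
    funext j
    rw [Finset.sum_apply, Finset.sum_eq_single j]
    · simp
    · intro i _ hi
      rw [Pi.smul_apply, Pi.single_eq_of_ne hi.symm, smul_zero]
    · intro h
      exact absurd (Finset.mem_univ j) h
  rwa [h1] at h

theorem eval_pw (col : Fin N → Fin q) (v : Fin N → ℂ) (L : Fin q → ℕ) (x : Fin N → ℂ)
    (z : Fin r → ℂ) : eval (Sum.elim x z) (pw r col v L) = ∏ k, lin col v k x ^ L k := by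
  simp only [pw, map_prod, map_pow, eval_lfM]

theorem pw_ne {col : Fin N → Fin q} {v : Fin N → ℂ} (L : Fin q → ℕ) {x : Fin N → ℂ}
    (hv : ∀ k, lin col v k x ≠ 0) (z : Fin r → ℂ) :
    eval (Sum.elim x z) (pw r col v L) ≠ 0 := by
  rw [eval_pw]
  exact Finset.prod_ne_zero_iff.2 fun k _ => pow_ne_zero _ (hv k)

/-- `Φ` is a section of the line bundle of class `c` -/
def SecM (col : Fin N → Fin q) (R : AddSubgroup ((Fin q → ℤ) × (Fin r → ℤ)))
    (c : (Fin q → ℤ) × (Fin r → ℤ)) (Φ : MvPolynomial (Fin N ⊕ Fin r) ℂ) : Prop :=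
  ∀ (s : Fin q → ℂˣ) (t : Fin r → ℂˣ), (∀ ρ ∈ R, chiM ρ s t = 1) →
    ∀ (x : Fin N → ℂ) (z : Fin r → ℂ),
      eval (Sum.elim (fun k => (s (col k) : ℂ) * x k) (fun i => (t i : ℂ) * z i)) Φ
        = (chiM c s t : ℂ) * eval (Sum.elim x z) Φ

theorem BiM.sec {col : Fin N → Fin q} {R : AddSubgroup ((Fin q → ℤ) × (Fin r → ℤ))}
    {c : (Fin q → ℤ) × (Fin r → ℤ)} {L : Fin q → ℕ}
    {a : Fin r → ℕ} {Φ : MvPolynomial (Fin N ⊕ Fin r) ℂ} (h : BiM col L a Φ)
    (hc : (((fun k => c.1 k - L k), fun i => c.2 i - (a i : ℤ)) :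
      (Fin q → ℤ) × (Fin r → ℤ)) ∈ R) : SecM col R c Φ := by
  intro s t hst x z
  have h0 := h (fun k => (s k : ℂ)) (fun i => (t i : ℂ)) x z
  rw [h0]
  have h1 : chiM c s t = chiM ((fun k => (L k : ℤ)), fun i => (a i : ℤ)) s t := chiM_congr hst hc
  rw [h1, chiM]
  congr 1
  push_cast
  simp

theorem SecM.add {col : Fin N → Fin q} {R : AddSubgroup ((Fin q → ℤ) × (Fin r → ℤ))}
    {c : (Fin q → ℤ) × (Fin r → ℤ)}
    {Φ Ψ : MvPolynomial (Fin N ⊕ Fin r) ℂ} (h : SecM col R c Φ) (h' : SecM col R c Ψ) (u v : ℂ) :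
    SecM col R c (C u * Φ + C v * Ψ) := by
  intro s t hst x z
  rw [map_add, map_mul, map_mul, h s t hst, h' s t hst, map_add, map_mul, map_mul, eval_C, eval_C,
    eval_C, eval_C]
  ring

theorem dd_lfM (col : Fin N → Fin q) (v : Fin N → ℂ) (k : Fin q) (p : Fin N ⊕ Fin r → ℂ)
    (u : Fin N → ℂ) (w : Fin r → ℂ) :
    dd p (Sum.elim u w) (lfM r col v k) = lin col v k u := by
  classical
  simp only [dd, lfM, lin, map_sum, Finset.sum_mul]
  rw [Finset.sum_comm]
  refine Finset.sum_congr rfl fun i _ => ?_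
  rw [Finset.sum_eq_single (Sum.inl i)]
  · simp [pderiv_mul]
  · intro b _ hb
    simp [pderiv_mul, pderiv_X, Pi.single_apply, hb.symm]
  · intro h; exact absurd (Finset.mem_univ _) h

/-- a linear form whose parts do not vanish at `x` -/
theorem exists_lin {col : Fin N → Fin q} {x : Fin N → ℂ} (hx : ∀ k, ∃ i, col i = k ∧ x i ≠ 0) :
    ∃ v : Fin N → ℂ, ∀ k, lin col v k x ≠ 0 := by
  classical
  choose ι h1 h2 using hx
  refine ⟨fun i => if i = ι (col i) then 1 else 0, fun k => ?_⟩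
  rw [lin, Finset.sum_eq_single (ι k)]
  · rw [if_pos (h1 k), if_pos (by rw [h1 k]), one_mul]
    exact h2 k
  · intro i _ hi
    by_cases h3 : col i = k
    · rw [if_pos h3, if_neg (by rw [h3]; exact hi), zero_mul]
    · rw [if_neg h3, zero_mul]
  · intro h
    exact absurd (Finset.mem_univ _) h

/-- a linear form which vanishes at `x` and not at `y` -/
theorem exists_lf' {σ : Type} [Fintype σ] {x y : σ → ℂ} (h : ¬ ∃ c : ℂ, ∀ k, y k = c * x k) :
    ∃ v : σ → ℂ, ∑ k, v k * x k = 0 ∧ ∑ k, v k * y k ≠ 0 := by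
  classical
  by_cases hx : x = 0
  · have hy : y ≠ 0 := by
      rintro rfl
      exact h ⟨0, fun k => by simp⟩
    obtain ⟨k, hk⟩ := Function.ne_iff.1 hy
    refine ⟨Pi.single k 1, by simp [hx], ?_⟩
    rw [Finset.sum_eq_single k]
    · simpa using hk
    · intro b _ hb
      simp [Pi.single_apply, hb]
    · intro h; exact absurd (Finset.mem_univ k) h
  · obtain ⟨k, hk⟩ := Function.ne_iff.1 hx
    by_contra hcon
    push Not at hcon
    refine h ⟨y k / x k, fun l => ?_⟩
    have hk' : x k ≠ 0 := hk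
    by_cases hlk : l = k
    · subst hlk
      field_simp
    · have h1 := hcon (fun i => if i = l then x k else if i = k then - x l else 0) (by
        rw [← Finset.add_sum_erase _ _ (Finset.mem_univ l), if_pos rfl,
          ← Finset.add_sum_erase _ _ (Finset.mem_erase.2 ⟨Ne.symm hlk, Finset.mem_univ k⟩),
          if_neg (Ne.symm hlk), if_pos rfl, Finset.sum_eq_zero]
        · ring
        · intro i hi
          rw [Finset.mem_erase, Finset.mem_erase] at hi
          rw [if_neg hi.2.1, if_neg hi.1, zero_mul])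
      rw [← Finset.add_sum_erase _ _ (Finset.mem_univ l), if_pos rfl,
        ← Finset.add_sum_erase _ _ (Finset.mem_erase.2 ⟨Ne.symm hlk, Finset.mem_univ k⟩),
        if_neg (Ne.symm hlk), if_pos rfl, Finset.sum_eq_zero] at h1
      · rw [div_mul_eq_mul_div, eq_div_iff hk']
        linear_combination h1
      · intro i hi
        rw [Finset.mem_erase, Finset.mem_erase] at hi
        rw [if_neg hi.2.1, if_neg hi.1, zero_mul]

/-- two points of the product of projective spaces are separated by a linear form -/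
theorem exists_sep {col : Fin N → Fin q} {x y : Fin N → ℂ}
    (h : ¬ ∃ s : Fin q → ℂ, ∀ i, y i = s (col i) * x i) :
    ∃ (k : Fin q) (v : Fin N → ℂ), lin col v k x = 0 ∧ lin col v k y ≠ 0 := by
  classical
  by_contra hcon
  push Not at hcon
  apply h
  have h1 : ∀ k, ∃ c : ℂ, ∀ i, (if col i = k then y i else 0) = c * (if col i = k then x i else 0) := by
    intro k
    by_contra h2
    obtain ⟨v, h3, h4⟩ := exists_lf' h2
    apply h4
    have h5 := hcon k v (by
      rw [lin]
      refine Eq.trans (Finset.sum_congr rfl fun i _ => ?_) h3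
      by_cases h6 : col i = k
      · rw [if_pos h6, if_pos h6]
      · rw [if_neg h6, if_neg h6, zero_mul, mul_zero])
    rw [lin] at h5
    refine Eq.trans (Finset.sum_congr rfl fun i _ => ?_) h5
    by_cases h6 : col i = k
    · rw [if_pos h6, if_pos h6]
    · rw [if_neg h6, if_neg h6, zero_mul, mul_zero]
  choose s hs using h1
  refine ⟨s, fun i => ?_⟩
  have := hs (col i) i
  simpa using this

/-- the degrees of a form in several groups of variables -/
def MHom (col : Fin N → Fin q) (p : MvPolynomial (Fin N) ℂ) (d : Fin q → ℕ) : Prop :=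
  IsWeightedHomogeneous (fun i => (Pi.single (col i) 1 : Fin q → ℕ)) p d

theorem weight_col (col : Fin N → Fin q) (m : Fin N →₀ ℕ) (k : Fin q) :
    Finsupp.weight (fun i => (Pi.single (col i) 1 : Fin q → ℕ)) m k =
      ∑ i, if col i = k then m i else 0 := by
  classical
  rw [Finsupp.weight_apply, Finsupp.sum_fintype _ _ (by simp), Finset.sum_apply]
  refine Finset.sum_congr rfl fun i _ => ?_
  rw [Pi.smul_apply]
  by_cases h : col i = k
  · rw [if_pos h, h, Pi.single_eq_same]
    simp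
  · rw [if_neg h, Pi.single_eq_of_ne (Ne.symm h), smul_zero]

theorem eval_mhom {col : Fin N → Fin q} {p : MvPolynomial (Fin N) ℂ} {d : Fin q → ℕ}
    (hp : MHom col p d) (s : Fin q → ℂ) (x : Fin N → ℂ) :
    eval (fun i => s (col i) * x i) p = (∏ k, s k ^ d k) * eval x p := by
  classical
  rw [eval_eq', eval_eq', Finset.mul_sum]
  refine Finset.sum_congr rfl fun m hm => ?_
  have h0 := hp (mem_support_iff.1 hm)
  have h1 : ∏ i, s (col i) ^ m i = ∏ k, s k ^ d k := by
    have h2 : ∀ k, s k ^ d k = ∏ i, if col i = k then s (col i) ^ m i else 1 := by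
      intro k
      rw [← h0, weight_col, ← Finset.prod_pow_eq_pow_sum]
      refine Finset.prod_congr rfl fun i _ => ?_
      by_cases h : col i = k
      · rw [if_pos h, if_pos h, h]
      · rw [if_neg h, if_neg h, pow_zero]
    simp only [h2]
    rw [Finset.prod_comm]
    refine Finset.prod_congr rfl fun i _ => ?_
    rw [Finset.prod_ite_eq]
    simp
  simp only [mul_pow, Finset.prod_mul_distrib, h1]
  ring

theorem euler {col : Fin N → Fin q} {p : MvPolynomial (Fin N) ℂ} {d : Fin q → ℕ}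
    (hp : MHom col p d) (x : Fin N → ℂ) (k : Fin q) :
    ∑ i, (if col i = k then x i * eval x (pderiv i p) else 0) = d k * eval x p := by
  classical
  have h1 : IsWeightedHomogeneous (fun i => if col i = k then 1 else 0 : Fin N → ℕ) p (d k) := by
    intro m hm
    have h2 := congrFun (hp hm) k
    rw [weight_col] at h2
    rw [← h2, Finsupp.weight_apply, Finsupp.sum_fintype _ _ (by simp)]
    refine Finset.sum_congr rfl fun i _ => ?_
    split_ifs <;> simp
  have h2 := congrArg (eval x) h1.sum_weight_X_mul_pderiv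
  rw [map_sum, map_nsmul, nsmul_eq_mul] at h2
  rw [← h2]
  refine Finset.sum_congr rfl fun i _ => ?_
  by_cases h : col i = k
  · rw [if_pos h, if_pos h, one_smul, map_mul, eval_X]
  · rw [if_neg h, if_neg h, zero_smul, map_zero]

end Pool.Agent.Run7.h30.MF
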