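import Pool.Agent.Run7.h30.MF.Geo

/-! Base points, separation of points and of tangent vectors on an abelian cover. -/

set_option autoImplicit false
set_option linter.unusedSectionVars false

namespace Pool.Agent.Run7.h30.MF

open MvPolynomial Pool.Agent.K3h47.FU

variable {N q r : ℕ} {col : Fin N → Fin q} {R : AddSubgroup ((Fin q → ℤ) × (Fin r → ℤ))}
  {δ : Fin r → Fin q → ℕ} {e : Fin r → ℕ} {n : ℕ}

theorem chiM_one (ρ : (Fin q → ℤ) × (Fin r → ℤ)) (t : Fin r → ℂˣ) :
    chiM ρ 1 t = ∏ i, t i ^ ρ.2 i := by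
  rw [chiM]
  simp

/-- The inertia groups are as large as possible if the action is free. -/
theorem sur_of_freeM (he : ∀ i, e i ≠ 0) (I : Finset (Fin r))
    (hfree : ∀ t : Fin r → ℂˣ, (∀ i, i ∉ I → t i = 1) → (∀ ρ ∈ R, chiM ρ 1 t = 1) →
      ∀ i, t i = 1) :
    ∀ i ∈ I, ∃ ρ ∈ LamM R e, ρ i = 1 ∧ ∀ i' ∈ I, i' ≠ i → ρ i' = 0 := by
  refine sur_of_free (R := R.map p0) he I fun t ht1 ht2 => hfree t ht1 fun ρ hρ => ?_
  have h1 := ht2 (p0 ρ) ⟨ρ, hρ, rfl⟩
  rw [chi, one_zpow, one_mul] at h1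
  rw [chiM_one]
  exact h1

/-- The group surjects to the torus which acts on the base. -/
theorem exists_tM (h : MDat R δ e n) (s : Fin q → ℂˣ) :
    ∃ t : Fin r → ℂˣ, ∀ ρ ∈ R, chiM ρ s t = 1 := by
  classical
  have h1 : ∀ k, ∃ t : Fin r → ℂˣ, ∀ ρ ∈ R.map (pr k), chi ρ (s k) t = 1 := fun k =>
    exists_t (δ := fun i => δ i k) (e := e) (fun i => (h.neZero i).ne) (by
      rintro _ ⟨ρ, hρ, rfl⟩
      exact h.deg ρ hρ k) (s k)
  choose t ht using h1
  refine ⟨fun i => ∏ k, t k i, fun ρ hρ => ?_⟩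
  rw [chiM]
  have h2 : ∏ i, (∏ k, t k i) ^ ρ.2 i = ∏ k, ∏ i, t k i ^ ρ.2 i := by
    rw [Finset.prod_comm]
    refine Finset.prod_congr rfl fun i _ => ?_
    rw [Finset.prod_zpow]
  rw [h2, ← Finset.prod_mul_distrib]
  refine Finset.prod_eq_one fun k _ => ?_
  exact ht k _ ⟨ρ, hρ, rfl⟩

/-- If the monomials do not separate two points over `x`, the points are equal. -/
theorem same_fibreM (h : MDat R δ e n) (c : (Fin q → ℤ) × (Fin r → ℤ)) (x : Fin N → ℂ)
    (hx : ∀ k, ∃ i, col i = k ∧ x i ≠ 0)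
    (z z' : Fin r → ℂ) (hz : ∀ i, z' i ^ e i = z i ^ e i)
    (hI : (Finset.univ.filter (fun i => z i = 0)).card ≤ n)
    (hE3 : ∀ Γ : AddSubgroup (∀ i, ZMod (e i)),
      (∀ y y', GoodM R e c (Finset.univ.filter (fun i => z i = 0)) y →
        GoodM R e c (Finset.univ.filter (fun i => z i = 0)) y' → y - y' ∈ Γ) →
      ∀ x ∈ van (LamM R e) (Finset.univ.filter (fun i => z i = 0)) 0, x ∈ Γ)
    (hsec : ∀ Φ, SecM col R c Φ → eval (Sum.elim x z) Φ = 0 → eval (Sum.elim x z') Φ = 0) :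
    ∃ t : Fin r → ℂˣ, (∀ ρ ∈ R, chiM ρ 1 t = 1) ∧ ∀ i, z' i = t i * z i := by
  classical
  have hne := h.neZero
  set I := Finset.univ.filter (fun i => z i = 0) with hIdef
  have hmemI : ∀ i, i ∈ I ↔ z i = 0 := fun i => by simp [hIdef]
  have hz'0 : ∀ i, z i = 0 ↔ z' i = 0 := by
    intro i
    have h1 := hz i
    constructor
    · intro h2
      rw [h2, zero_pow (hne i).ne] at h1
      exact pow_eq_zero_iff (hne i).ne |>.1 h1
    · intro h2
      rw [h2, zero_pow (hne i).ne] at h1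
      exact pow_eq_zero_iff (hne i).ne |>.1 h1.symm
  set τ : Fin r → ℂˣ := fun i => if hi : z i = 0 then 1 else
    Units.mk0 (z' i / z i) (div_ne_zero (fun h2 => hi ((hz'0 i).2 h2)) hi) with hτdef
  have hτz : ∀ i, z' i = τ i * z i := by
    intro i
    by_cases hi : z i = 0
    · rw [hi, mul_zero]
      exact (hz'0 i).1 hi
    · simp only [hτdef, dif_neg hi, Units.val_mk0]
      field_simp
  have hτe : ∀ i, τ i ^ e i = 1 := by
    intro i
    by_cases hi : z i = 0
    · simp [hτdef, dif_pos hi]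
    · ext
      simp only [hτdef, dif_neg hi, Units.val_pow_eq_pow_val, Units.val_mk0, Units.val_one]
      rw [div_pow, hz i, div_self (pow_ne_zero _ hi)]
  have hτI : ∀ i ∈ I, τ i = 1 := fun i hi => by
    simp only [hτdef, dif_pos ((hmemI i).1 hi)]
  obtain ⟨v, hv⟩ := exists_lin hx
  -- the homomorphism
  set φ := phi τ hτe with hφ
  have hprod : ∀ a : Fin r → ℕ, ∏ i, z' i ^ a i = (∏ i, (τ i : ℂ) ^ a i) * ∏ i, z i ^ a i := by
    intro a
    rw [← Finset.prod_mul_distrib]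
    refine Finset.prod_congr rfl fun i _ => ?_
    rw [← mul_pow, ← hτz i]
  have hker : ∀ y y', GoodM R e c I y → GoodM R e c I y' → y - y' ∈ φ.ker := by
    intro y y' hy hy'
    have hnz : ∀ w, GoodM R e c I w → ∏ i, z i ^ aOf w i ≠ 0 := by
      intro w hw
      refine Finset.prod_ne_zero_iff.2 fun i _ => ?_
      by_cases hi : z i = 0
      · rw [hw.1 i ((hmemI i).2 hi), pow_zero]
        exact one_ne_zero
      · exact pow_ne_zero _ hi
    obtain ⟨L, hL0, hL⟩ := hy.2
    obtain ⟨L', hL0', hL'⟩ := hy'.2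
    lift L to Fin q → ℕ using hL0
    lift L' to Fin q → ℕ using hL0'
    set Φ := monoM N (aOf y) * pw r col v L with hΦ
    set Φ' := monoM N (aOf y') * pw r col v L' with hΦ'
    have hsΦ : SecM col R c Φ := by
      refine BiM.sec (L := L) (a := aOf y) ?_ hL
      have := (BiM.mono col (aOf y)).mul (BiM.pw col v L)
      simpa using this
    have hsΦ' : SecM col R c Φ' := by
      refine BiM.sec (L := L') (a := aOf y') ?_ hL'
      have := (BiM.mono col (aOf y')).mul (BiM.pw col v L')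
      simpa using this
    set ℓ : (Fin q → ℕ) → ℂ := fun K => ∏ k, lin col v k x ^ K k with hℓ
    have hℓ0 : ∀ K, ℓ K ≠ 0 := fun K => Finset.prod_ne_zero_iff.2 fun k _ => pow_ne_zero _ (hv k)
    have hev : ∀ (w : Fin r → ℂ) (a : Fin r → ℕ) (K : Fin q → ℕ),
        eval (Sum.elim x w) (monoM N a * pw r col v K) = (∏ i, w i ^ a i) * ℓ K := by
      intro w a K
      rw [map_mul, eval_monoM, eval_pw]
    have hcomb : ∀ (p : Fin N ⊕ Fin r → ℂ) (u u' : ℂ)
        (Ψ Ψ' : MvPolynomial (Fin N ⊕ Fin r) ℂ),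
        eval p (C u * Ψ + C u' * Ψ') = u * eval p Ψ + u' * eval p Ψ' := by
      intro p u u' Ψ Ψ'
      rw [map_add, map_mul, map_mul, eval_C, eval_C]
    have h1 := hsec _ (hsΦ.add hsΦ' (eval (Sum.elim x z) Φ') (- eval (Sum.elim x z) Φ)) (by
      rw [hcomb]
      ring)
    rw [hcomb, hΦ, hΦ', hev, hev, hev, hev, hprod, hprod] at h1
    have hA := hnz y hy
    have hA' := hnz y' hy'
    have h2 : (∏ i, (τ i : ℂ) ^ aOf y i) = ∏ i, (τ i : ℂ) ^ aOf y' i := by
      have h3 : ((∏ i, z i ^ aOf y i) * ℓ L * ((∏ i, z i ^ aOf y' i) * ℓ L')) ≠ 0 :=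
        mul_ne_zero (mul_ne_zero hA (hℓ0 _)) (mul_ne_zero hA' (hℓ0 _))
      have h4 : ((∏ i, (τ i : ℂ) ^ aOf y i) - ∏ i, (τ i : ℂ) ^ aOf y' i)
          * ((∏ i, z i ^ aOf y i) * ℓ L * ((∏ i, z i ^ aOf y' i) * ℓ L')) = 0 := by
        linear_combination h1
      exact sub_eq_zero.1 ((mul_eq_zero.1 h4).resolve_right h3)
    have h3 : ∏ i, τ i ^ aOf y i = ∏ i, τ i ^ aOf y' i := by
      ext
      push_cast
      exact h2
    -- compare with `φ`
    have h4 : ∀ w : ∀ i, ZMod (e i), (∏ i, τ i ^ aOf w i) * ∏ i, τ i ^ (w i).val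
        = ∏ i, τ i ^ (e i - 1) := by
      intro w
      rw [← Finset.prod_mul_distrib]
      refine Finset.prod_congr rfl fun i _ => ?_
      rw [← pow_add]
      congr 1
      have := ZMod.val_lt (w i)
      rw [aOf]
      omega
    have h5 : ∀ w : ∀ i, ZMod (e i), φ w = Additive.ofMul (∏ i, τ i ^ (w i).val) := by
      intro w
      rw [hφ, phi_apply τ hτe w (fun i => ((w i).val : ℤ)) (fun i => by
        rw [Int.cast_natCast, ZMod.natCast_zmod_val])]
      congr 1
    rw [AddMonoidHom.mem_ker, map_sub, h5, h5, sub_eq_zero]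
    congr 1
    have h6 := h4 y
    have h7 := h4 y'
    rw [← h7, h3] at h6
    exact mul_left_cancel h6
  have hvan := hE3 φ.ker hker
  -- the element of the group
  have hsur := h.sur I hI
  choose! ρ hρ hρ1 hρ0 using hsur
  refine ⟨fun i => if i ∈ I then (Additive.toMul (φ (ρ i)))⁻¹ else τ i, ?_, ?_⟩
  · intro σ hσ
    have h1 : red e (p0 σ) - ∑ i ∈ I, σ.2 i • ρ i ∈ van (LamM R e) I 0 := by
      refine ⟨(LamM R e).sub_mem ⟨p0 σ, ⟨σ, hσ, rfl⟩, rfl⟩
        ((LamM R e).sum_mem fun i hi => (LamM R e).zsmul_mem (hρ i hi) _), ?_, by rw [zero_smul]⟩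
      intro i hi
      rw [Pi.sub_apply, Finset.sum_apply, Finset.sum_eq_single i]
      · rw [Pi.smul_apply, hρ1 i hi, zsmul_eq_mul, mul_one]
        exact sub_self _
      · intro j hj hji
        rw [Pi.smul_apply, hρ0 j hj i hi hji.symm, smul_zero]
      · intro h2
        exact absurd hi h2
    have h2 := hvan _ h1
    rw [AddMonoidHom.mem_ker, map_sub, map_sum, sub_eq_zero, hφ,
      phi_apply τ hτe (red e (p0 σ)) σ.2 (fun i => rfl), ← hφ] at h2
    have h3 : ∏ i, τ i ^ σ.2 i = ∏ i ∈ I, (Additive.toMul (φ (ρ i))) ^ σ.2 i := by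
      have h4 := congrArg Additive.toMul h2
      rw [toMul_ofMul] at h4
      rw [h4, toMul_sum]
      refine Finset.prod_congr rfl fun i _ => ?_
      rw [map_zsmul, toMul_zsmul]
    have h4 : ∏ i, τ i ^ σ.2 i = ∏ i ∈ Finset.univ \ I, τ i ^ σ.2 i := by
      rw [← Finset.prod_sdiff (Finset.subset_univ I), Finset.prod_eq_one (s := I), mul_one]
      intro i hi
      rw [hτI i hi, one_zpow]
    rw [chiM_one, ← Finset.prod_sdiff (Finset.subset_univ I)]
    have h5 : ∏ i ∈ Finset.univ \ I, (if i ∈ I then (Additive.toMul (φ (ρ i)))⁻¹ else τ i) ^ σ.2 i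
        = ∏ i ∈ Finset.univ \ I, τ i ^ σ.2 i := by
      refine Finset.prod_congr rfl fun i hi => ?_
      rw [if_neg (Finset.mem_sdiff.1 hi).2]
    have h6 : ∏ i ∈ I, (if i ∈ I then (Additive.toMul (φ (ρ i)))⁻¹ else τ i) ^ σ.2 i
        = (∏ i ∈ I, (Additive.toMul (φ (ρ i))) ^ σ.2 i)⁻¹ := by
      rw [← Finset.prod_inv_distrib]
      refine Finset.prod_congr rfl fun i hi => ?_
      rw [if_pos hi, inv_zpow]
    rw [h5, h6, ← h4, h3, mul_inv_cancel]
  · intro i
    by_cases hi : i ∈ I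
    · rw [(hmemI i).1 hi, mul_zero]
      exact (hz'0 i).1 ((hmemI i).1 hi)
    · simp only [if_neg hi]
      exact hτz i

section
variable (h : MDat R δ e n) {c : (Fin q → ℤ) × (Fin r → ℤ)} (hβ : Big δ e n c)
include h hβ

theorem prod_neM {z : Fin r → ℂ} {a : Fin r → ℕ}
    (ha : ∀ i ∈ Finset.univ.filter (fun i => z i = 0), a i = 0) : ∏ i, z i ^ a i ≠ 0 := by
  refine Finset.prod_ne_zero_iff.2 fun i _ => ?_
  by_cases hi : z i = 0
  · rw [ha i (by simp [hi]), pow_zero]
    exact one_ne_zero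
  · exact pow_ne_zero _ hi

/-- a linear form of colour `k` times powers of other linear forms -/
theorem exists_secM (z : Fin r → ℂ)
    (hI : (Finset.univ.filter (fun i => z i = 0)).card ≤ n) (k : Fin q) (v v' : Fin N → ℂ) :
    ∃ (L : Fin q → ℕ) (a : Fin r → ℕ), ∏ i, z i ^ a i ≠ 0 ∧
      SecM col R c (monoM N a * (lfM r col v k * pw r col v' L)) := by
  classical
  obtain ⟨L, a, hL, ha, hR⟩ := h.E1 hβ _ hI
  have hL0 : ∀ j, 0 ≤ L j := fun j => by have := hL j; omega
  lift L to Fin q → ℕ using hL0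
  have hk : 1 ≤ L k := by
    have h7 : (1 : ℤ) ≤ (L k : ℤ) := hL k
    exact_mod_cast h7
  refine ⟨L - Pi.single k 1, a, prod_neM h hβ ha, ?_⟩
  refine BiM.sec (L := L) (a := a) ?_ hR
  have := (BiM.mono col a).mul ((BiM.lf (r := r) col v k).mul (BiM.pw col v' (L - Pi.single k 1)))
  have h1 : (0 : Fin q → ℕ) + (Pi.single k 1 + (L - Pi.single k 1)) = L := by
    funext j
    rw [Pi.add_apply, Pi.add_apply, Pi.sub_apply, Pi.zero_apply]
    by_cases hj : j = k
    · subst hj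
      rw [Pi.single_eq_same]
      omega
    · rw [Pi.single_eq_of_ne hj]
      omega
  rw [h1] at this
  simpa using this

theorem bpfM (x : Fin N → ℂ) (hx : ∀ k, ∃ i, col i = k ∧ x i ≠ 0) (z : Fin r → ℂ)
    (hI : (Finset.univ.filter (fun i => z i = 0)).card ≤ n) :
    ∃ Φ : MvPolynomial (Fin N ⊕ Fin r) ℂ, SecM col R c Φ ∧ eval (Sum.elim x z) Φ ≠ 0 := by
  obtain ⟨v, hv⟩ := exists_lin hx
  obtain ⟨L, a, hL, ha, hR⟩ := h.E1 hβ _ hI
  have hL0 : ∀ j, 0 ≤ L j := fun j => by have := hL j; omega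
  lift L to Fin q → ℕ using hL0
  refine ⟨monoM N a * pw r col v L, ?_, ?_⟩
  · refine BiM.sec (L := L) (a := a) ?_ hR
    have := (BiM.mono col a).mul (BiM.pw col v L)
    simpa using this
  · rw [map_mul, eval_monoM]
    exact mul_ne_zero (prod_neM h hβ ha) (pw_ne L hv z)

theorem ptsM (x x' : Fin N → ℂ) (hx : ∀ k, ∃ i, col i = k ∧ x i ≠ 0)
    (hx' : ∀ k, ∃ i, col i = k ∧ x' i ≠ 0) (z z' : Fin r → ℂ)
    (f : Fin r → MvPolynomial (Fin N) ℂ) (hf : ∀ i, MHom col (f i) (δ i))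
    (hz : ∀ i, z i ^ e i = eval x (f i)) (hz' : ∀ i, z' i ^ e i = eval x' (f i))
    (hI' : (Finset.univ.filter (fun i => z' i = 0)).card ≤ n)
    (hne : ¬ ∃ (s : Fin q → ℂˣ) (t : Fin r → ℂˣ), (∀ ρ ∈ R, chiM ρ s t = 1) ∧
      (∀ k, x' k = s (col k) * x k) ∧ ∀ i, z' i = t i * z i) :
    ∃ Φ : MvPolynomial (Fin N ⊕ Fin r) ℂ, SecM col R c Φ ∧ eval (Sum.elim x z) Φ = 0 ∧
      eval (Sum.elim x' z') Φ ≠ 0 := by
  classical
  by_cases hxx : ∃ s : Fin q → ℂ, ∀ i, x' i = s (col i) * x i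
  · obtain ⟨s, hs⟩ := hxx
    have hs0 : ∀ k, s k ≠ 0 := by
      intro k h0
      obtain ⟨i, hi, hi0⟩ := hx' k
      apply hi0
      rw [hs i, hi, h0, zero_mul]
    obtain ⟨t, ht⟩ := exists_tM h (fun k => Units.mk0 (s k) (hs0 k))
    by_contra hcon
    push Not at hcon
    have hxe : (fun k => ((Units.mk0 (s (col k)) (hs0 (col k)) : ℂˣ) : ℂ) * x k) = x' := by
      funext k
      rw [hs k, Units.val_mk0]
    set w : Fin r → ℂ := fun i => (t i : ℂ) * z i with hw
    have hwe : ∀ i, w i ^ e i = eval x' (f i) := by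
      intro i
      have h1 := ht _ (h.rel i)
      have h2 : (t i) ^ e i = ∏ k, (Units.mk0 (s k) (hs0 k)) ^ δ i k := by
        rw [chiM] at h1
        have h4 : ∏ i', t i' ^ (Pi.single i (e i : ℤ) : Fin r → ℤ) i' = t i ^ e i := by
          rw [Finset.prod_eq_single i]
          · rw [Pi.single_eq_same, zpow_natCast]
          · intro j _ hj
            rw [Pi.single_eq_of_ne hj, zpow_zero]
          · intro h3
            exact absurd (Finset.mem_univ i) h3
        simp only [zpow_neg, zpow_natCast, Finset.prod_inv_distrib] at h1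
        rw [h4, inv_mul_eq_one] at h1
        exact h1.symm
      have h3 : (t i : ℂ) ^ e i = ∏ k, s k ^ δ i k := by
        have := congrArg (Units.val) h2
        simpa using this
      rw [hw]
      simp only
      rw [mul_pow, h3, hz i]
      rw [show x' = fun k => s (col k) * x k from funext hs, eval_mhom (hf i)]
    have hIe : Finset.univ.filter (fun i => w i = 0) = Finset.univ.filter (fun i => z' i = 0) := by
      ext i
      simp only [Finset.mem_filter, Finset.mem_univ, true_and]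
      rw [← pow_eq_zero_iff (h.neZero i).ne, hwe i, ← hz' i, pow_eq_zero_iff (h.neZero i).ne]
    obtain ⟨t', ht', hzt⟩ := same_fibreM (col := col) h c x' hx' w z'
      (fun i => by rw [hz' i, hwe i])
      (by rw [hIe]; exact hI')
      (by
        rw [hIe]
        exact fun Γ hΓ => h.E3 hβ _ hI' Γ hΓ)
      (fun Φ hΦ h0 => by
        refine hcon Φ hΦ ?_
        have h1 := hΦ _ _ ht x z
        rw [hxe] at h1
        rw [show (fun i => (t i : ℂ) * z i) = w from rfl, h0] at h1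
        exact (mul_eq_zero.1 h1.symm).resolve_left (Units.ne_zero _))
    refine hne ⟨fun k => Units.mk0 (s k) (hs0 k), fun i => t' i * t i, ?_,
      fun k => by rw [hs k, Units.val_mk0], ?_⟩
    · intro ρ hρ
      have h1 := ht ρ hρ
      have h2 := ht' ρ hρ
      rw [chiM_one] at h2
      rw [chiM] at h1 ⊢
      simp only [mul_zpow, Finset.prod_mul_distrib]
      rw [h2, one_mul, h1]
    · intro i
      rw [hzt i, hw]
      push_cast
      ring
  · obtain ⟨k, v, hv0, hv1⟩ := exists_sep hxx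
    obtain ⟨v', hv'⟩ := exists_lin hx'
    obtain ⟨L, a, ha, hs⟩ := exists_secM (col := col) h hβ z' hI' k v v'
    refine ⟨_, hs, ?_, ?_⟩
    · rw [map_mul, map_mul, eval_lfM, hv0]
      ring
    · rw [map_mul, map_mul, eval_monoM, eval_lfM]
      exact mul_ne_zero ha (mul_ne_zero hv1 (pw_ne L hv' z'))

theorem tanM (x u : Fin N → ℂ) (hx : ∀ k, ∃ i, col i = k ∧ x i ≠ 0) (z v : Fin r → ℂ)
    (hI : (Finset.univ.filter (fun i => z i = 0)).card ≤ n)
    (f : Fin r → MvPolynomial (Fin N) ℂ) (hf : ∀ i, MHom col (f i) (δ i))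
    (hz : ∀ i, z i ^ e i = eval x (f i))
    (hv : ∀ i, e i * z i ^ (e i - 1) * v i = ∑ k, eval x (pderiv k (f i)) * u k)
    (hne : ¬ ∃ σ : Fin q → ℂ, (∀ k, u k = σ (col k) * x k) ∧
      ∀ i, v i = (∑ k, σ k * (δ i k / e i)) * z i) :
    ∃ Φ : MvPolynomial (Fin N ⊕ Fin r) ℂ, SecM col R c Φ ∧ eval (Sum.elim x z) Φ = 0 ∧
      dd (Sum.elim x z) (Sum.elim u v) Φ ≠ 0 := by
  classical
  by_cases hxu : ∃ σ : Fin q → ℂ, ∀ i, u i = σ (col i) * x i
  · obtain ⟨σ, hσ⟩ := hxu
    obtain ⟨i₀, hi₀⟩ : ∃ i, v i ≠ (∑ k, σ k * (δ i k / e i)) * z i := by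
      by_contra hcon
      push Not at hcon
      exact hne ⟨σ, hσ, hcon⟩
    have hz0 : z i₀ = 0 := by
      by_contra h0
      apply hi₀
      have h1 := hv i₀
      have h2 : ∑ k, eval x (pderiv k (f i₀)) * u k = (∑ k, σ k * δ i₀ k) * z i₀ ^ e i₀ := by
        rw [hz i₀, Finset.sum_mul]
        have h3 : ∀ k, σ k * (δ i₀ k : ℂ) * eval x (f i₀) =
            ∑ i, if col i = k then σ (col i) * (x i * eval x (pderiv i (f i₀))) else 0 := by
          intro k
          rw [mul_assoc, ← euler (hf i₀) x k, Finset.mul_sum]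
          refine Finset.sum_congr rfl fun i _ => ?_
          by_cases h4 : col i = k
          · rw [if_pos h4, if_pos h4, h4]
          · rw [if_neg h4, if_neg h4, mul_zero]
        simp only [h3]
        rw [Finset.sum_comm]
        refine Finset.sum_congr rfl fun i _ => ?_
        rw [Finset.sum_ite_eq, if_pos (Finset.mem_univ _), hσ i]
        ring
      rw [h2] at h1
      have h3 : e i₀ = e i₀ - 1 + 1 := by have := h.two i₀; omega
      have h4 : z i₀ ^ e i₀ = z i₀ ^ (e i₀ - 1) * z i₀ := by rw [← pow_succ, ← h3]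
      rw [h4] at h1
      have h5 : (e i₀ : ℂ) ≠ 0 := by exact_mod_cast (h.neZero i₀).ne
      have h6 : z i₀ ^ (e i₀ - 1) ≠ 0 := pow_ne_zero _ h0
      have h7 : (e i₀ : ℂ) * v i₀ = (∑ k, σ k * δ i₀ k) * z i₀ := by
        refine mul_left_cancel₀ h6 ?_
        linear_combination h1
      have h8 : ∑ k, σ k * ((δ i₀ k : ℂ) / e i₀) = (∑ k, σ k * δ i₀ k) / e i₀ := by
        rw [Finset.sum_div]
        exact Finset.sum_congr rfl fun k _ => by ring
      rw [h8]
      field_simp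
      linear_combination h7
    have hv0 : v i₀ ≠ 0 := by
      rw [hz0, mul_zero] at hi₀
      exact hi₀
    obtain ⟨L, a, hL, ha1, ha0, hR⟩ := h.E2 hβ _ hI i₀ (by simp [hz0])
    lift L to Fin q → ℕ using hL
    obtain ⟨w, hw⟩ := exists_lin hx
    set a' : Fin r → ℕ := Function.update a i₀ 0 with ha'
    have hmono : monoM N a = X (Sum.inr i₀) * monoM N a' := by
      rw [monoM, monoM, ← Finset.mul_prod_erase _ _ (Finset.mem_univ i₀), ha1, pow_one,
        ← Finset.mul_prod_erase _ _ (Finset.mem_univ i₀)]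
      rw [ha', Function.update_self, pow_zero, one_mul]
      congr 1
      refine Finset.prod_congr rfl fun i hi => ?_
      rw [Function.update_of_ne (Finset.ne_of_mem_erase hi)]
    have hs : SecM col R c (monoM N a * pw r col w L) := by
      refine BiM.sec (L := L) (a := a) ?_ hR
      have := (BiM.mono col a).mul (BiM.pw col w L)
      simpa using this
    refine ⟨_, hs, ?_, ?_⟩
    · rw [hmono, map_mul, map_mul, eval_X, Sum.elim_inr, hz0]
      ring
    · rw [hmono, mul_assoc, dd_mul, dd_X, eval_X, Sum.elim_inr, Sum.elim_inr, hz0, zero_mul,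
        add_zero, map_mul, eval_monoM]
      refine mul_ne_zero hv0 (mul_ne_zero ?_ (pw_ne L hw z))
      refine prod_neM h hβ fun i hi => ?_
      by_cases hii : i = i₀
      · rw [hii, ha', Function.update_self]
      · rw [ha', Function.update_of_ne hii]
        exact ha0 i hi hii
  · obtain ⟨k, w, hw0, hw1⟩ := exists_sep hxu
    obtain ⟨w', hw'⟩ := exists_lin hx
    obtain ⟨L, a, ha, hs⟩ := exists_secM (col := col) h hβ z hI k w w'
    refine ⟨_, hs, ?_, ?_⟩
    · rw [map_mul, map_mul, eval_lfM, hw0]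
      ring
    · rw [dd_mul, dd_mul, map_mul, eval_lfM, hw0, dd_lfM, eval_monoM]
      rw [zero_mul, mul_zero, zero_add, zero_mul, add_zero]
      exact mul_ne_zero ha (mul_ne_zero hw1 (pw_ne L hw' z))

end

end Pool.Agent.Run7.h30.MF
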